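import Mathlib

/-!
# Monotone real circuits with few further gates for Set Cover: definitions

An instance consists of `m` subsets of `Fin n`, given by an `m × n` incidence matrix. The circuits
compute with real numbers. Their gates are inputs, real constants, nondecreasing functions of two
gates, maxima of any number of gates, and further gates, which compute arbitrary Boolean functions
of the comparisons `1 ≤ value` of any number of gates.
-/

open Finset

namespace RealMono

/-- The number `1` if `p` is true and `0` if not. -/
noncomputable def bit (p : Prop) : ℝ := by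
  classical exact if p then 1 else 0

/-- The function `g` of two real variables is nondecreasing in both variables. -/
def Mono₂ (g : ℝ → ℝ → ℝ) : Prop := ∀ x x' y y', x ≤ x' → y ≤ y' → g x y ≤ g x' y'

/-- A gate which may refer to the gates with numbers `< i`. -/
inductive Gate (ι : Type) (i : ℕ) : Type
  | input (v : ι)
  | const (c : ℝ)
  | mono (g : ℝ → ℝ → ℝ) (hg : Mono₂ g) (a b : Fin i)
  | max (S : Finset (Fin i))
  | other (r : ℕ) (w : Fin r → Fin i) (g : (Fin r → Prop) → Prop)

/-- Is the gate a nondecreasing function of two gates? -/
def Gate.isMono {ι : Type} {i : ℕ} : Gate ι i → Bool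
  | .mono _ _ _ _ => true
  | _ => false

/-- Is the gate one of the further gates? -/
def Gate.isOther {ι : Type} {i : ℕ} : Gate ι i → Bool
  | .other _ _ _ => true
  | _ => false

/-- Number of input wires, if the gate is one of the further gates. -/
def Gate.wires {ι : Type} {i : ℕ} : Gate ι i → ℕ
  | .other r _ _ => r
  | _ => 0

/-- A circuit: gate number `i` refers only to gates with smaller numbers. A circuit with output
gate `o` is given by the gates with numbers `≤ o`; the other ones are irrelevant. -/
abbrev Circuit (ι : Type) := (i : ℕ) → Gate ι i

/-- The value of gate number `i` on the input `x`. The value of the maximum over the empty set of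
gates is `0`. -/
noncomputable def Circuit.val {ι : Type} (C : Circuit ι) (x : ι → Prop) (i : ℕ) : ℝ :=
  match C i with
  | .input v => bit (x v)
  | .const c => c
  | .mono g _ a b => g (C.val x a) (C.val x b)
  | .max S => if h : S.Nonempty then S.sup' h fun a => C.val x a else 0
  | .other _ w g => bit (g fun l => 1 ≤ C.val x (w l))
termination_by i
decreasing_by all_goals exact Fin.isLt _

/-- Number of nondecreasing functions of two gates among the gates with numbers `≤ o`. -/
def Circuit.numMono {ι : Type} (C : Circuit ι) (o : ℕ) : ℕ :=
  ((range (o + 1)).filter fun i => (C i).isMono = true).card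

/-- Number of further gates among the gates with numbers `≤ o`. -/
def Circuit.numOther {ι : Type} (C : Circuit ι) (o : ℕ) : ℕ :=
  ((range (o + 1)).filter fun i => (C i).isOther = true).card

/-- Number of input wires of the further gates altogether. -/
def Circuit.numWires {ι : Type} (C : Circuit ι) (o : ℕ) : ℕ :=
  ∑ i ∈ range (o + 1), (C i).wires

/-- Probability of the event `A`, where `j` has probability `p j`. -/
noncomputable def Prob {M : ℕ} (p : Fin M → ℝ) (A : Fin M → Prop) : ℝ := ∑ j, p j * bit (A j)

/-- At most `k` of the `m` sets cover `Fin n`; `a i v` says that the set number `i` contains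
`v`. -/
def HasCover {m n : ℕ} (k : ℕ) (a : Fin m → Fin n → Prop) : Prop :=
  ∃ I : Finset (Fin m), I.card ≤ k ∧ ∀ v, ∃ i ∈ I, a i v

/-- There is a randomized circuit (a probability distribution `p` on circuits `C j` with output
gates `o j`) with at most `s` nondecreasing functions of two gates, any number of maxima and at
most `t` further gates, these having at most `w` input wires altogether, which decides with error
probability at most `1 / 2 - δ`, given `m` subsets of `Fin n`, whether at most `k` of them cover
`Fin n`. A circuit accepts if its output is at least `1`. The inputs of the circuits are the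
`m * n` entries of the incidence matrix. -/
def HasRandomCircuit (m n k s t w : ℕ) (δ : ℝ) : Prop :=
  ∃ (M : ℕ) (p : Fin M → ℝ) (C : Fin M → Circuit (Fin m × Fin n)) (o : Fin M → ℕ),
    (∀ j, 0 ≤ p j) ∧ ∑ j, p j = 1 ∧
    (∀ j, (C j).numMono (o j) ≤ s ∧ (C j).numOther (o j) ≤ t ∧ (C j).numWires (o j) ≤ w) ∧
    (∀ a : Fin m → Fin n → Prop, HasCover k a →
      1 / 2 + δ ≤ Prob p fun j => 1 ≤ (C j).val (fun e => a e.1 e.2) (o j)) ∧
    (∀ a : Fin m → Fin n → Prop, ¬ HasCover k a →
      Prob p (fun j => 1 ≤ (C j).val (fun e => a e.1 e.2) (o j)) ≤ 1 / 2 - δ)

end RealMono
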