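import Pool.Agent.Lib.MP_8fffab_lc_RG.Step
import Pool.Agent.Lib.MP_8fffab_lc_RG.Defs
import Pool.Agent.Lib.MP_8fffab_lc_MC.Out

/-!
# Approximation of the gates of a real circuit
-/

open Finset

namespace RealMono

open SetCoverMono (Tm terms PosSat NegSat IsLit classes zeros OneDim single supp mem_terms mem_supp
  posSat_single zeros_of_negSat supp_single real_step)

theorem bit_true {p : Prop} (h : p) : bit p = 1 := by unfold bit; simp [h]

theorem bit_false {p : Prop} (h : ¬ p) : bit p = 0 := by unfold bit; simp [h]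

theorem bit_nonneg (p : Prop) : 0 ≤ bit p := by
  by_cases h : p
  · rw [bit_true h]; norm_num
  · rw [bit_false h]

theorem bit_le_one (p : Prop) : bit p ≤ 1 := by
  by_cases h : p
  · rw [bit_true h]
  · rw [bit_false h]; norm_num

theorem bit_mono {p q : Prop} (h : p → q) : bit p ≤ bit q := by
  by_cases hp : p
  · rw [bit_true hp, bit_true (h hp)]
  · rw [bit_false hp]; exact bit_nonneg q

theorem one_le_bit {p : Prop} : 1 ≤ bit p ↔ p := by
  by_cases h : p
  · rw [bit_true h]; simp [h]
  · rw [bit_false h]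
    constructor
    · intro h'; norm_num at h'
    · exact fun h' => absurd h' h

/-- The value of gate number `i` on the input `x` if every further gate `j` is replaced by the
constant `bit (β j)`. -/
noncomputable def Circuit.mval {ι : Type} (C : Circuit ι) (β : ℕ → Prop) (x : ι → Prop)
    (i : ℕ) : ℝ :=
  match C i with
  | .input v => bit (x v)
  | .const c => c
  | .mono g _ a b => g (C.mval β x a) (C.mval β x b)
  | .max S => if h : S.Nonempty then S.sup' h fun a => C.mval β x a else 0
  | .other _ _ _ => bit (β i)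
termination_by i
decreasing_by all_goals exact Fin.isLt _

/-- Number of nondecreasing functions of two gates among the gates with numbers `< s`. -/
def cnt {ι : Type} (C : Circuit ι) (s : ℕ) : ℕ :=
  ((range s).filter fun i => (C i).isMono = true).card

theorem cnt_succ {ι : Type} (C : Circuit ι) (s : ℕ) :
    cnt C (s + 1) = cnt C s + if (C s).isMono = true then 1 else 0 := by
  unfold cnt
  rw [Finset.range_add_one, Finset.filter_insert]
  by_cases h : (C s).isMono = true
  · rw [if_pos h, if_pos h, Finset.card_insert_of_notMem (by simp)]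
  · rw [if_neg h, if_neg h]
    rfl

theorem top_mem_terms {n k : ℕ} (y₀ : Fin n → Fin k) : (⊤ : Tm n) ∈ terms y₀ := by
  rw [mem_terms]
  refine ⟨⟨1, fun _ _ _ => trivial⟩, ?_⟩
  have : supp (⊤ : Tm n) = ∅ := by
    ext v
    rw [mem_supp]
    simp only [notMem_empty, iff_false, not_not]
    trivial
  rw [this]
  simp

/-- `A θ` says that the value `vp π` on the positive input `π`, `vn f` on the negative input `f`,
is at least `θ`, up to the errors `Bp` and `Bn`. -/
def Appr {n k p : ℕ} (y₀ : Fin n → Fin k) (Bp : Finset (Equiv.Perm (Fin n)))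
    (Bn : Finset (Fin n → ZMod p)) (vp : Equiv.Perm (Fin n) → ℝ) (vn : (Fin n → ZMod p) → ℝ)
    (A : ℝ → Finset (Tm n)) : Prop :=
  (∀ θ, A θ ⊆ terms y₀) ∧ (∀ θ θ', θ ≤ θ' → A θ' ⊆ A θ) ∧
    (∀ π, π ∈ Bp ∨ ∃ b ∈ A (vp π), PosSat (y₀ ∘ π) b) ∧
    ∀ f θ, (∃ b ∈ A θ, NegSat f b) → f ∈ Bn ∨ θ ≤ vn f

theorem Appr.mono {n k p : ℕ} {y₀ : Fin n → Fin k} {Bp Bp' : Finset (Equiv.Perm (Fin n))}
    {Bn Bn' : Finset (Fin n → ZMod p)} {vp : Equiv.Perm (Fin n) → ℝ} {vn : (Fin n → ZMod p) → ℝ}
    {A : ℝ → Finset (Tm n)} (h : Appr y₀ Bp Bn vp vn A) (hp : Bp ⊆ Bp') (hn : Bn ⊆ Bn') :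
    Appr y₀ Bp' Bn' vp vn A :=
  ⟨h.1, h.2.1, fun π => (h.2.2.1 π).imp (fun h' => hp h') id,
    fun f θ hf => (h.2.2.2 f θ hf).imp (fun h' => hn h') id⟩

/-- Constants. -/
theorem appr_const {n k p : ℕ} (y₀ : Fin n → Fin k) (c : ℝ) :
    ∃ A, Appr (p := p) y₀ ∅ ∅ (fun _ => c) (fun _ => c) A := by
  classical
  refine ⟨fun θ => if θ ≤ c then {⊤} else ∅, ?_, ?_, fun π => Or.inr ⟨⊤, ?_, fun _ _ _ => trivial⟩,
    ?_⟩
  · intro θ
    dsimp only
    split_ifs
    · rw [singleton_subset_iff]; exact top_mem_terms y₀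
    · simp
  · intro θ θ' h
    dsimp only
    by_cases h' : θ' ≤ c
    · rw [if_pos h', if_pos (h.trans h')]
    · rw [if_neg h']; simp
  · dsimp only
    rw [if_pos le_rfl]; simp
  · intro f θ hf
    right
    by_contra hcon
    dsimp only at hf
    rw [if_neg hcon] at hf
    simp at hf

/-- Bits. -/
theorem appr_bit {n k p : ℕ} (y₀ : Fin n → Fin k) {Pp : Equiv.Perm (Fin n) → Prop}
    {Pn : (Fin n → ZMod p) → Prop} {D : Finset (Tm n)} (hD : D ⊆ terms y₀)
    (h1 : ∀ π, Pp π → ∃ b ∈ D, PosSat (y₀ ∘ π) b) (h2 : ∀ f, (∃ b ∈ D, NegSat f b) → Pn f) :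
    ∃ A, Appr (p := p) y₀ ∅ ∅ (fun π => bit (Pp π)) (fun f => bit (Pn f)) A := by
  classical
  refine ⟨fun θ => if θ ≤ 0 then insert ⊤ D else if θ ≤ 1 then D else ∅, ?_, ?_, ?_, ?_⟩
  · intro θ
    dsimp only
    split_ifs
    · exact insert_subset (top_mem_terms y₀) hD
    · exact hD
    · simp
  · intro θ θ' h
    dsimp only
    by_cases h0 : θ ≤ 0
    · rw [if_pos h0]
      split_ifs
      · exact subset_rfl
      · exact subset_insert _ _
      · simp
    · have h0' : ¬ θ' ≤ 0 := fun h' => h0 (h.trans h')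
      rw [if_neg h0, if_neg h0']
      by_cases h3 : θ' ≤ 1
      · rw [if_pos h3, if_pos (h.trans h3)]
      · rw [if_neg h3]; simp
  · intro π
    right
    dsimp only
    by_cases hπ : Pp π
    · rw [bit_true hπ, if_neg (by norm_num), if_pos le_rfl]
      exact h1 π hπ
    · rw [bit_false hπ, if_pos le_rfl]
      exact ⟨⊤, mem_insert_self _ _, fun _ _ _ => trivial⟩
  · intro f θ hf
    right
    dsimp only at hf
    by_cases h0 : θ ≤ 0
    · exact h0.trans (bit_nonneg _)
    · rw [if_neg h0] at hf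
      by_cases h3 : θ ≤ 1
      · rw [if_pos h3] at hf
        exact h3.trans (bit_true (h2 f hf)).ge
      · rw [if_neg h3] at hf
        simp at hf

/-- The approximators of the gates. -/
theorem approx_real {p n k h t G κ : ℕ} [Fact p.Prime] (hG : G < 2 * t) (h1 : OneDim p k t G)
    (hκ : 0 < κ) (y₀ : Fin n → Fin k) (hh : 2 * h ≤ n) {ι : Type}
    {a : (Finset (Fin n) → Prop) → ι → Prop} (ha : IsLit n h a) (C : Circuit ι)
    (β : ℕ → Prop) (s : ℕ) :
    ∃ (A : ℕ → ℝ → Finset (Tm n)) (Bp : Finset (Equiv.Perm (Fin n)))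
      (Bn : Finset (Fin n → ZMod p)),
      2 ^ n * Bp.card ≤ cnt C s * ((2 * κ) ^ k * (2 * κ) ^ k * (3 ^ k * (n + 1) * n.factorial)) ∧
      κ ^ G * Bn.card ≤ cnt C s * (2 * (((k + 1) ^ (n + 1) + 1) *
          ((k + 1) ^ (n + 1) * p ^ (n + k * (2 * t + 1))))) ∧
      ∀ i < s, Appr y₀ Bp Bn (fun π => C.mval β (a (classes (y₀ ∘ π))) i)
        (fun f => C.mval β (a (zeros f)) i) (A i) := by
  classical
  induction s with
  | zero => exact ⟨fun _ _ => ∅, ∅, ∅, by simp, by simp, fun i hi => absurd hi (Nat.not_lt_zero i)⟩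
  | succ s ih =>
    obtain ⟨A, Bp, Bn, hBp, hBn, hA⟩ := ih
    -- it suffices to treat the new gate
    suffices h : ∃ (D : ℝ → Finset (Tm n)) (B : Finset (Equiv.Perm (Fin n)))
        (B' : Finset (Fin n → ZMod p)),
        2 ^ n * B.card ≤ (if (C s).isMono = true then 1 else 0) *
          ((2 * κ) ^ k * (2 * κ) ^ k * (3 ^ k * (n + 1) * n.factorial)) ∧
        κ ^ G * B'.card ≤ (if (C s).isMono = true then 1 else 0) *
          (2 * (((k + 1) ^ (n + 1) + 1) * ((k + 1) ^ (n + 1) * p ^ (n + k * (2 * t + 1))))) ∧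
        Appr y₀ (Bp ∪ B) (Bn ∪ B') (fun π => C.mval β (a (classes (y₀ ∘ π))) s)
          (fun f => C.mval β (a (zeros f)) s) D by
      obtain ⟨D, B, B', hB, hB', hD⟩ := h
      refine ⟨Function.update A s D, Bp ∪ B, Bn ∪ B', ?_, ?_, ?_⟩
      · rw [cnt_succ, add_mul]
        calc 2 ^ n * (Bp ∪ B).card ≤ 2 ^ n * (Bp.card + B.card) :=
              Nat.mul_le_mul_left _ (card_union_le _ _)
          _ = 2 ^ n * Bp.card + 2 ^ n * B.card := by ring
          _ ≤ _ := Nat.add_le_add hBp hB
      · rw [cnt_succ, add_mul]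
        calc κ ^ G * (Bn ∪ B').card ≤ κ ^ G * (Bn.card + B'.card) :=
              Nat.mul_le_mul_left _ (card_union_le _ _)
          _ = κ ^ G * Bn.card + κ ^ G * B'.card := by ring
          _ ≤ _ := Nat.add_le_add hBn hB'
      · intro i hi
        rcases Nat.lt_succ_iff_lt_or_eq.1 hi with h | rfl
        · rw [Function.update_of_ne h.ne]
          exact (hA i h).mono subset_union_left subset_union_left
        · rw [Function.update_self]
          exact hD
    -- gates without errors
    have hfree : (∃ D, Appr (p := p) y₀ Bp Bn (fun π => C.mval β (a (classes (y₀ ∘ π))) s)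
          (fun f => C.mval β (a (zeros f)) s) D) → ∃ (D : ℝ → Finset (Tm n))
        (B : Finset (Equiv.Perm (Fin n))) (B' : Finset (Fin n → ZMod p)),
        2 ^ n * B.card ≤ (if (C s).isMono = true then 1 else 0) *
          ((2 * κ) ^ k * (2 * κ) ^ k * (3 ^ k * (n + 1) * n.factorial)) ∧
        κ ^ G * B'.card ≤ (if (C s).isMono = true then 1 else 0) *
          (2 * (((k + 1) ^ (n + 1) + 1) * ((k + 1) ^ (n + 1) * p ^ (n + k * (2 * t + 1))))) ∧
        Appr y₀ (Bp ∪ B) (Bn ∪ B') (fun π => C.mval β (a (classes (y₀ ∘ π))) s)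
          (fun f => C.mval β (a (zeros f)) s) D := by
      rintro ⟨D, hD⟩
      exact ⟨D, ∅, ∅, by simp, by simp, hD.mono subset_union_left subset_union_left⟩
    rcases hg : C s with v | c | ⟨g, hgm, x, y⟩ | S | ⟨r, w, g⟩
    · rw [← hg]
      apply hfree
      have hval : ∀ z, C.mval β z s = bit (z v) := by
        intro z; rw [Circuit.mval, hg]
      simp only [hval]
      -- the three kinds of inputs
      have hD : ∃ D : Finset (Tm n), D ⊆ terms y₀ ∧
          (∀ π : Equiv.Perm (Fin n), a (classes (y₀ ∘ π)) v → ∃ b ∈ D, PosSat (y₀ ∘ π) b) ∧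
          ∀ f : Fin n → ZMod p, (∃ b ∈ D, NegSat f b) → a (zeros f) v := by
        rcases ha v with h | h | ⟨S, hS, h⟩
        · exact ⟨{⊤}, by rw [singleton_subset_iff]; exact top_mem_terms y₀,
            fun π _ => ⟨⊤, by simp, fun _ _ _ => trivial⟩, fun f _ => h _⟩
        · exact ⟨∅, by simp, fun π hπ => absurd hπ (h _), fun f hf => by simp at hf⟩
        · by_cases hT : single S ∈ terms y₀
          · refine ⟨{single S}, by simpa using hT, fun π hπ => ?_, fun f hf => ?_⟩
            · exact ⟨single S, by simp, posSat_single ((h _).1 hπ)⟩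
            · obtain ⟨b, hb, hf⟩ := hf
              rw [mem_singleton] at hb
              subst hb
              exact (h _).2 (zeros_of_negSat hf)
          · refine ⟨∅, by simp, fun π hπ => ?_, fun f hf => by simp at hf⟩
            exfalso
            apply hT
            rw [mem_terms, supp_single, hS]
            exact ⟨⟨π, posSat_single ((h _).1 hπ)⟩, hh⟩
      obtain ⟨D, hD1, hD2, hD3⟩ := hD
      obtain ⟨A', hA'⟩ := appr_bit (p := p) y₀ hD1 hD2 hD3
      exact ⟨A', hA'.mono (empty_subset _) (empty_subset _)⟩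
    · rw [← hg]
      apply hfree
      have hval : ∀ z, C.mval β z s = c := by
        intro z; rw [Circuit.mval, hg]
      simp only [hval]
      obtain ⟨A', hA'⟩ := appr_const (p := p) y₀ c
      exact ⟨A', hA'.mono (empty_subset _) (empty_subset _)⟩
    · -- the essential case
      have hval : ∀ z, C.mval β z s = g (C.mval β z x) (C.mval β z y) := by
        intro z; rw [Circuit.mval, hg]
      simp only [hval]
      obtain ⟨hx1, hx2, hx3, hx4⟩ := hA x x.2
      obtain ⟨hy1, hy2, hy3, hy4⟩ := hA y y.2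
      obtain ⟨D, hD1, hD2, ⟨B, hB, hB'⟩, F, hF, hF'⟩ :=
        real_step hG h1 hκ y₀ hx1 hy1 hx2 hy2 g
      refine ⟨D, B, F, ?_, ?_, hD1, hD2, fun π => ?_, fun f θ hf => ?_⟩
      · simpa [Gate.isMono] using hB
      · simpa [Gate.isMono] using hF
      · rcases hx3 π with h | h
        · exact Or.inl (mem_union_left _ h)
        rcases hy3 π with h' | h'
        · exact Or.inl (mem_union_left _ h')
        rcases hB' π _ _ h h' with h'' | h''
        · exact Or.inl (mem_union_right _ h'')
        · exact Or.inr h''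
      · rcases hF' f θ hf with h | ⟨α, γ, h2, h3, h4⟩
        · exact Or.inl (mem_union_right _ h)
        rcases hx4 f α h3 with h5 | h5
        · exact Or.inl (mem_union_left _ h5)
        rcases hy4 f γ h4 with h6 | h6
        · exact Or.inl (mem_union_left _ h6)
        exact Or.inr (h2.trans (hgm _ _ _ _ h5 h6))
    · rw [← hg]
      apply hfree
      by_cases hS : S.Nonempty
      · have hval : ∀ z, C.mval β z s = S.sup' hS fun i => C.mval β z i := by
          intro z; rw [Circuit.mval, hg]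
          simp only [dif_pos hS]
        simp only [hval]
        refine ⟨fun θ => S.biUnion fun i => A i θ, ?_, ?_, fun π => ?_, fun f θ hf => ?_⟩
        · intro θ b hb
          obtain ⟨i, -, hb⟩ := mem_biUnion.1 hb
          exact (hA i i.2).1 θ hb
        · intro θ θ' hθ b hb
          obtain ⟨i, hi, hb⟩ := mem_biUnion.1 hb
          exact mem_biUnion.2 ⟨i, hi, (hA i i.2).2.1 θ θ' hθ hb⟩
        · obtain ⟨i, hi, hmax⟩ := S.exists_mem_eq_sup' hS
            fun i => C.mval β (a (classes (y₀ ∘ π))) i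
          rcases (hA i i.2).2.2.1 π with h | ⟨b, hb, h⟩
          · exact Or.inl h
          · refine Or.inr ⟨b, mem_biUnion.2 ⟨i, hi, ?_⟩, h⟩
            change b ∈ A i (S.sup' hS fun i => C.mval β (a (classes (y₀ ∘ π))) i)
            rw [hmax]
            exact hb
        · obtain ⟨b, hb, hfb⟩ := hf
          obtain ⟨i, hi, hb⟩ := mem_biUnion.1 hb
          rcases (hA i i.2).2.2.2 f θ ⟨b, hb, hfb⟩ with h | h
          · exact Or.inl h
          · exact Or.inr (h.trans (le_sup' (fun i : Fin s => C.mval β (a (zeros f)) i) hi))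
      · have hval : ∀ z, C.mval β z s = 0 := by
          intro z; rw [Circuit.mval, hg]
          simp only [dif_neg hS]
        simp only [hval]
        obtain ⟨A', hA'⟩ := appr_const (p := p) y₀ 0
        exact ⟨A', hA'.mono (empty_subset _) (empty_subset _)⟩
    · rw [← hg]
      apply hfree
      have hval : ∀ z, C.mval β z s = bit (β s) := by
        intro z; rw [Circuit.mval, hg]
      simp only [hval]
      obtain ⟨A', hA'⟩ := appr_const (p := p) y₀ (bit (β s))
      exact ⟨A', hA'.mono (empty_subset _) (empty_subset _)⟩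

end RealMono
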