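import Mathlib

/-! Numerical estimates for the choice of the parameters. -/

open Finset Filter

namespace RealMono

theorem core_num {k : ℕ} (hk : 2 ≤ k) {η : ℝ} (hη : 0 < η) : ∃ H G : ℕ, 0 < H ∧ ∀ p t : ℕ,
    ∃ u₀ : ℕ, ∀ u ≥ u₀, ∀ n κ : ℕ, n = k * u → κ = 2 ^ (n / H) →
      (2 * (κ : ℝ)) ^ k * (2 * κ) ^ k * (3 ^ k * (n + 1)) / 2 ^ n +
        2 * (2 * ((((k : ℝ) + 1) ^ (n + 1) + 1) ^ 2 * p ^ (k * (2 * t + 1))) / κ ^ G) ≤
        (2 : ℝ) ^ (-((1 - η) * n)) ∧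
      (κ : ℝ) ^ k * (2 ^ k / 2 ^ u) +
        2 * ((((k : ℝ) + 1) ^ (n + 1) + 1) ^ 2 * p ^ (k * (2 * t + 1))) / κ ^ G ≤
        (2 : ℝ) ^ (-((u : ℝ) / 4)) := by
  obtain ⟨H₁, hH₁⟩ := exists_nat_ge (4 * k / η)
  obtain ⟨H, hH⟩ : ∃ H, H = H₁ + 2 * k ^ 2 := ⟨_, rfl⟩
  have hH0 : 0 < H := by
    have : 0 < k ^ 2 := by positivity
    omega
  have hHa : 4 * k / η ≤ (H : ℝ) := by
    rw [hH]; push_cast
    have : (0 : ℝ) ≤ 2 * (k : ℝ) ^ 2 := by positivity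
    linarith
  have hHb : 2 * k ^ 2 ≤ H := by omega
  refine ⟨H, (2 * k + 3) * H, hH0, fun p t => ?_⟩
  -- eventual inequalities in `n`
  have hr : (1 : ℝ) < 2 ^ (η / 2) := Real.one_lt_rpow (by norm_num) (by positivity)
  have ev1 : ∀ᶠ n : ℕ in atTop, 4 * (4 ^ k * 3 ^ k) * ((n : ℝ) + 1) ≤ (2 : ℝ) ^ (η / 2 * n) := by
    have h1 := (tendsto_pow_const_div_const_pow_of_one_lt 1 hr).const_mul
      (4 * (4 ^ k * 3 ^ k) * 2 : ℝ)
    rw [mul_zero] at h1
    filter_upwards [h1.eventually (ge_mem_nhds (by norm_num : (0 : ℝ) < 1)), eventually_ge_atTop 1]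
      with n hn hn1
    have h2 : (0 : ℝ) < (2 ^ (η / 2)) ^ n := by positivity
    rw [pow_one, mul_div_assoc', div_le_one h2] at hn
    rw [Real.rpow_mul (by norm_num), Real.rpow_natCast]
    have h3 : (1 : ℝ) ≤ n := by exact_mod_cast hn1
    have h4 : (0 : ℝ) < 4 * (4 ^ k * 3 ^ k) := by positivity
    calc 4 * (4 ^ k * 3 ^ k) * ((n : ℝ) + 1) ≤ 4 * (4 ^ k * 3 ^ k) * (2 * n) :=
          mul_le_mul_of_nonneg_left (by linarith) h4.le
      _ = 4 * (4 ^ k * 3 ^ k) * 2 * n := by ring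
      _ ≤ _ := hn
  obtain ⟨D, hD⟩ : ∃ D : ℝ, D = 8 * p ^ (k * (2 * t + 1)) * 2 ^ (2 * k + (2 * k + 3) * H) :=
    ⟨_, rfl⟩
  have ev2 : ∀ᶠ n : ℕ in atTop, D ≤ (2 : ℝ) ^ n :=
    (tendsto_pow_atTop_atTop_of_one_lt (by norm_num : (1 : ℝ) < 2)).eventually_ge_atTop D
  obtain ⟨n₀, hn₀⟩ := (ev1.and ev2).exists_forall_of_atTop
  refine ⟨n₀ + 4 * k + 4, fun u hu n κ hn hκ => ?_⟩
  have hnu : 2 * u ≤ n := by rw [hn]; exact Nat.mul_le_mul_right _ hk
  obtain ⟨e1, e2⟩ := hn₀ n (by omega)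
  obtain ⟨m, hm⟩ : ∃ m, m = n / H := ⟨_, rfl⟩
  have hm1 : H * m ≤ n := by rw [hm]; exact Nat.mul_div_le n H
  have hm2 : n < H * m + H := by
    rw [hm]
    have := Nat.lt_mul_div_succ n hH0
    linarith [Nat.mul_succ H (n / H)]
  rw [← hm] at hκ
  have hm1' : (H : ℝ) * m ≤ n := by exact_mod_cast hm1
  have hm2' : (n : ℝ) ≤ H * m + H := by exact_mod_cast hm2.le
  have two_pos : (0 : ℝ) < 2 := by norm_num
  -- the third term
  have hthird : 2 * ((((k : ℝ) + 1) ^ (n + 1) + 1) ^ 2 * p ^ (k * (2 * t + 1))) /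
      κ ^ ((2 * k + 3) * H) ≤ (2 : ℝ) ^ (-(2 * (n : ℝ))) := by
    have h1 : (((k : ℝ) + 1) ^ (n + 1) + 1) ^ 2 ≤ 4 * 2 ^ (2 * k * (n + 1)) := by
      have h0 : ((k : ℝ) + 1) ^ (n + 1) ≤ 2 ^ (k * (n + 1)) := by
        rw [pow_mul]
        have : (k : ℝ) + 1 ≤ 2 ^ k := by
          have := @Nat.lt_two_pow_self k
          exact_mod_cast this
        gcongr
      have h0' : (1 : ℝ) ≤ 2 ^ (k * (n + 1)) := one_le_pow₀ (by norm_num)
      have h00 : (0 : ℝ) ≤ ((k : ℝ) + 1) ^ (n + 1) + 1 := by positivity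
      calc (((k : ℝ) + 1) ^ (n + 1) + 1) ^ 2 ≤ (2 * 2 ^ (k * (n + 1))) ^ 2 := by
            apply pow_le_pow_left₀ h00
            linarith
        _ = 4 * 2 ^ (2 * k * (n + 1)) := by
            have e : k * (n + 1) * 2 = 2 * k * (n + 1) := by ring
            rw [mul_pow, ← pow_mul, e]
            norm_num
    have h2 : (κ : ℝ) ^ ((2 * k + 3) * H) * 2 ^ ((2 * k + 3) * H) ≥ 2 ^ ((2 * k + 3) * n) := by
      rw [hκ]
      push_cast
      rw [← pow_mul, ← pow_add]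
      apply pow_le_pow_right₀ (by norm_num)
      calc (2 * k + 3) * n ≤ (2 * k + 3) * (H * m + H) := Nat.mul_le_mul_left _ hm2.le
        _ = m * ((2 * k + 3) * H) + (2 * k + 3) * H := by ring
    have hκ0 : (0 : ℝ) < (κ : ℝ) ^ ((2 * k + 3) * H) := by
      rw [hκ]; positivity
    rw [div_le_iff₀ hκ0]
    have h3 : (2 : ℝ) ^ (-(2 * (n : ℝ))) = 1 / 2 ^ (2 * n) := by
      rw [Real.rpow_neg two_pos.le, one_div]
      congr 1
      rw [← Real.rpow_natCast]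
      push_cast
      rfl
    rw [h3, one_div_mul_eq_div, le_div_iff₀ (by positivity)]
    have h4 : (0 : ℝ) < 2 ^ ((2 * k + 3) * H) := by positivity
    have h5 : 2 * ((((k : ℝ) + 1) ^ (n + 1) + 1) ^ 2 * p ^ (k * (2 * t + 1))) * 2 ^ (2 * n) *
        2 ^ ((2 * k + 3) * H) ≤ (κ : ℝ) ^ ((2 * k + 3) * H) * 2 ^ ((2 * k + 3) * H) := by
      refine le_trans ?_ h2
      calc 2 * ((((k : ℝ) + 1) ^ (n + 1) + 1) ^ 2 * p ^ (k * (2 * t + 1))) * 2 ^ (2 * n) *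
            2 ^ ((2 * k + 3) * H)
          ≤ 2 * ((4 * 2 ^ (2 * k * (n + 1))) * p ^ (k * (2 * t + 1))) * 2 ^ (2 * n) *
            2 ^ ((2 * k + 3) * H) := by gcongr
        _ = D * 2 ^ (2 * k * n + 2 * n) := by
            rw [hD, pow_add 2 (2 * k * n), pow_add 2 (2 * k), Nat.mul_succ (2 * k) n,
              pow_add 2 (2 * k * n) (2 * k)]
            ring
        _ ≤ 2 ^ n * 2 ^ (2 * k * n + 2 * n) := by gcongr
        _ = 2 ^ ((2 * k + 3) * n) := by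
            rw [← pow_add]
            congr 1
            ring
    exact le_of_mul_le_mul_right h5 h4
  have hn1 : (8 : ℝ) ≤ n := by
    have : 8 ≤ n := by omega
    exact_mod_cast this
  have hthird2 : (2 : ℝ) ^ (-(2 * (n : ℝ))) ≤ 1 / 4 * 2 ^ (-(n : ℝ)) := by
    have : (1 / 4 : ℝ) = 2 ^ (-2 : ℝ) := by
      rw [Real.rpow_neg two_pos.le]
      norm_num
    rw [this, ← Real.rpow_add two_pos]
    apply Real.rpow_le_rpow_of_exponent_le (by norm_num)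
    linarith
  constructor
  · -- the first inequality
    have h1 : (κ : ℝ) ^ k * κ ^ k ≤ 2 ^ (η / 2 * n) := by
      rw [hκ]
      push_cast
      rw [← pow_add, ← pow_mul, ← Real.rpow_natCast]
      apply Real.rpow_le_rpow_of_exponent_le (by norm_num)
      push_cast
      have h2 : 4 * (k : ℝ) ≤ η * H := by
        rw [div_le_iff₀ hη] at hHa
        linarith
      have h3 : (0 : ℝ) ≤ m := Nat.cast_nonneg _
      nlinarith
    have h2 : (2 * (κ : ℝ)) ^ k * (2 * κ) ^ k * (3 ^ k * (n + 1)) / 2 ^ n ≤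
        1 / 4 * (2 : ℝ) ^ (-((1 - η) * n)) := by
      rw [div_le_iff₀ (by positivity)]
      have h3 : 1 / 4 * (2 : ℝ) ^ (-((1 - η) * n)) * 2 ^ n =
          1 / 4 * (2 ^ (η / 2 * n) * 2 ^ (η / 2 * n)) := by
        rw [mul_assoc, ← Real.rpow_natCast 2 n, ← Real.rpow_add two_pos,
          ← Real.rpow_add two_pos]
        congr 2
        ring
      rw [h3]
      have h4 : (0 : ℝ) ≤ 2 ^ (η / 2 * n) := by positivity
      have h5 : (2 : ℝ) ^ k * 2 ^ k = 4 ^ k := by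
        rw [← mul_pow]; norm_num
      calc (2 * (κ : ℝ)) ^ k * (2 * κ) ^ k * (3 ^ k * (n + 1))
          = (κ ^ k * κ ^ k) * ((2 ^ k * 2 ^ k) * 3 ^ k * (n + 1)) := by
            rw [mul_pow]; ring
        _ ≤ 2 ^ (η / 2 * n) * ((2 ^ k * 2 ^ k) * 3 ^ k * (n + 1)) := by
            gcongr
        _ = 1 / 4 * (2 ^ (η / 2 * n) * (4 * (4 ^ k * 3 ^ k) * (n + 1))) := by
            rw [h5]; ring
        _ ≤ _ := by gcongr
    have h3 : (2 : ℝ) ^ (-(n : ℝ)) ≤ 2 ^ (-((1 - η) * n)) := by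
      apply Real.rpow_le_rpow_of_exponent_le (by norm_num)
      nlinarith
    have h4 : (0 : ℝ) ≤ 2 ^ (-((1 - η) * n)) := by positivity
    linarith
  · have h1 : (κ : ℝ) ^ k * (2 ^ k / 2 ^ u) ≤ 1 / 2 * 2 ^ (-((u : ℝ) / 4)) := by
      have h2 : (κ : ℝ) ^ k ≤ 2 ^ ((u : ℝ) / 2) := by
        rw [hκ]
        push_cast
        rw [← pow_mul, ← Real.rpow_natCast]
        apply Real.rpow_le_rpow_of_exponent_le (by norm_num)
        push_cast
        have h3 : 2 * k ^ 2 * m ≤ k * u := by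
          rw [← hn]
          exact (Nat.mul_le_mul_right _ hHb).trans hm1
        have h4 : 2 * k * m ≤ u := by
          have : k * (2 * k * m) ≤ k * u := by
            calc k * (2 * k * m) = 2 * k ^ 2 * m := by ring
              _ ≤ _ := h3
          exact Nat.le_of_mul_le_mul_left this (by omega)
        have h5 : 2 * (k : ℝ) * m ≤ u := by exact_mod_cast h4
        linarith
      have h3 : (2 : ℝ) ^ k / 2 ^ u = 2 ^ ((k : ℝ) - u) := by
        rw [Real.rpow_sub two_pos, Real.rpow_natCast, Real.rpow_natCast]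
      have h4 : (1 / 2 : ℝ) = 2 ^ (-1 : ℝ) := by
        rw [Real.rpow_neg two_pos.le]
        norm_num
      rw [h3, h4, ← Real.rpow_add two_pos]
      calc (κ : ℝ) ^ k * 2 ^ ((k : ℝ) - u) ≤ 2 ^ ((u : ℝ) / 2) * 2 ^ ((k : ℝ) - u) := by gcongr
        _ = 2 ^ ((u : ℝ) / 2 + ((k : ℝ) - u)) := by rw [← Real.rpow_add two_pos]
        _ ≤ _ := by
            apply Real.rpow_le_rpow_of_exponent_le (by norm_num)
            have : 4 * k + 4 ≤ u := by omega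
            have h5 : 4 * (k : ℝ) + 4 ≤ u := by exact_mod_cast this
            linarith
    have h2 : (2 : ℝ) ^ (-(n : ℝ)) ≤ 2 ^ (-((u : ℝ) / 4)) := by
      apply Real.rpow_le_rpow_of_exponent_le (by norm_num)
      have : 2 * (u : ℝ) ≤ n := by exact_mod_cast hnu
      have h5 : (0 : ℝ) ≤ u := Nat.cast_nonneg _
      linarith
    have h3 : (0 : ℝ) ≤ 2 ^ (-((u : ℝ) / 4)) := by positivity
    linarith

end RealMono
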