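import Pool.Agent.Lib.MP_8fffab_lc_NM.Ineq
import Pool.Agent.Lib.MP_8fffab_lc_RG.Circ

/-!
# Small real circuits cannot tell random partitions from random sum-zero families
-/

open Finset FewNeg

namespace SetCoverMono

/-- The last step: a family of allowed terms which approximates an acceptance predicate. -/
theorem end_step {p n k h t G κ : ℕ} [Fact p.Prime] (hG : G < 2 * t) (h1 : OneDim p k t G)
    (hκ : 0 < κ) (y₀ : Fin n → Fin k) (hy₀ : ∀ j, (univ.filter fun v => y₀ v = j).card = h)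
    (hn : 0 < n) {A : Finset (Tm n)} (hA : A ⊆ terms y₀)
    {accp : Equiv.Perm (Fin n) → Prop} {accn : (Fin n → ZMod p) → Prop}
    {Bp : Finset (Equiv.Perm (Fin n))} {Bn : Finset (Fin n → ZMod p)} {x y : ℝ} (hx0 : 0 ≤ x)
    (hy0 : 0 ≤ y)
    (hBp : (Bp.card : ℝ) ≤ x * n.factorial)
    (hBn : (Bn.card : ℝ) * κ ^ G ≤ y * (p : ℝ) ^ (n + k * (2 * t + 1)))
    (hP : ∀ π, accp π → π ∈ Bp ∨ ∃ b ∈ A, PosSat (y₀ ∘ π) b)
    (hN : ∀ f, (∃ b ∈ A, NegSat f b) → f ∈ Bn ∨ accn f) :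
    avg (fun π : Equiv.Perm (Fin n) => ind (accp π)) ≤
      avg (fun f : {f : Fin n → ZMod p // ∑ v, f v ≠ 0} => ind (accn f.1)) +
      (x + κ ^ k * (2 ^ k / 2 ^ h) +
        (y + (k + 1) ^ (n + 1)) * (2 * (p : ℝ) ^ (k * (2 * t + 1)) / κ ^ G)) := by
  classical
  obtain ⟨A', hAA', hcl, F, hF, hFA⟩ := exists_cl (p := p) (t := t) (G := G) (κ := κ) y₀ hA
  have hp0 : 0 < p := (Fact.out : p.Prime).pos
  have hκ' : (0 : ℝ) < (κ : ℝ) ^ G := by positivity
  have hp' : (0 : ℝ) < (p : ℝ) ^ n := by positivity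
  have hΩ := card_nonzero (p := p) hn
  have hΩ' : ((p : ℝ) ^ n) ≤ 2 * Fintype.card {f : Fin n → ZMod p // ∑ v, f v ≠ 0} := by
    exact_mod_cast hΩ
  have hΩ0 : (0 : ℝ) < Fintype.card {f : Fin n → ZMod p // ∑ v, f v ≠ 0} := by linarith
  have hx2 : (0 : ℝ) ≤ κ ^ k * (2 ^ k / 2 ^ h) := by positivity
  have hx3 : (0 : ℝ) ≤ (y + (k + 1) ^ (n + 1)) *
      (2 * (p : ℝ) ^ (k * (2 * t + 1)) / κ ^ G) := by positivity
  by_cases htop : (⊤ : Tm n) ∈ A'
  · -- almost all negative inputs are accepted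
    have hle1 : avg (fun π : Equiv.Perm (Fin n) => ind (accp π)) ≤ 1 :=
      avg_le_one fun _ => ind_le_one _
    have hbad : ((univ.filter fun f : {f : Fin n → ZMod p // ∑ v, f v ≠ 0} =>
        ¬ accn f.1).card : ℝ) ≤ (F ∪ Bn).card := by
      have : (univ.filter fun f : {f : Fin n → ZMod p // ∑ v, f v ≠ 0} =>
        ¬ accn f.1).card ≤ (F ∪ Bn).card := by
        refine card_le_card_of_injOn (fun f => f.1) ?_ (fun f _ g _ h => Subtype.ext h)
        intro f hf
        rw [mem_coe, mem_filter] at hf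
        rw [mem_coe, mem_union]
        rcases hFA f.1 ⟨⊤, htop, negSat_top _⟩ with h2 | h2
        · exact Or.inl h2
        · rcases hN f.1 h2 with h3 | h3
          · exact Or.inr h3
          · exact absurd h3 hf.2
      exact_mod_cast this
    have hFB : ((F ∪ Bn).card : ℝ) * κ ^ G ≤
        (y + (k + 1) ^ (n + 1)) * (p : ℝ) ^ (n + k * (2 * t + 1)) := by
      have h2 : ((F ∪ Bn).card : ℝ) ≤ F.card + Bn.card := by exact_mod_cast card_union_le _ _
      have h3 : (κ : ℝ) ^ G * F.card ≤ (k + 1) ^ (n + 1) * p ^ (n + k * (2 * t + 1)) := by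
        exact_mod_cast hF
      calc ((F ∪ Bn).card : ℝ) * κ ^ G ≤ (F.card + Bn.card) * κ ^ G :=
            mul_le_mul_of_nonneg_right h2 hκ'.le
        _ = κ ^ G * F.card + Bn.card * κ ^ G := by ring
        _ ≤ _ := add_le_add h3 hBn
        _ = _ := by ring
    have hval : avg (fun f : {f : Fin n → ZMod p // ∑ v, f v ≠ 0} =>
        ind (accn f.1)) = 1 - (univ.filter fun f :
          {f : Fin n → ZMod p // ∑ v, f v ≠ 0} => ¬ accn f.1).card /
          (Fintype.card {f : Fin n → ZMod p // ∑ v, f v ≠ 0} : ℝ) := by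
      rw [← avg_ind]
      have : Nonempty {f : Fin n → ZMod p // ∑ v, f v ≠ 0} := by
        rw [← Fintype.card_pos_iff]
        exact_mod_cast hΩ0
      have h2 : avg (fun _ : {f : Fin n → ZMod p // ∑ v, f v ≠ 0} => (1 : ℝ)) = 1 := avg_const 1
      rw [← h2, ← avg_sub]
      congr 1
      funext f
      rw [ind_not]
      ring
    have hfrac : ((univ.filter fun f : {f : Fin n → ZMod p // ∑ v, f v ≠ 0} =>
        ¬ accn f.1).card : ℝ) /
          (Fintype.card {f : Fin n → ZMod p // ∑ v, f v ≠ 0} : ℝ) ≤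
        (y + (k + 1) ^ (n + 1)) * (2 * (p : ℝ) ^ (k * (2 * t + 1)) / κ ^ G) := by
      rw [div_le_iff₀ hΩ0]
      have h2 : (y + (k + 1) ^ (n + 1)) * (2 * (p : ℝ) ^ (k * (2 * t + 1)) / κ ^ G) *
          (Fintype.card {f : Fin n → ZMod p // ∑ v, f v ≠ 0} : ℝ) ≥
          (y + (k + 1) ^ (n + 1)) * (2 * (p : ℝ) ^ (k * (2 * t + 1)) / κ ^ G) *
          ((p : ℝ) ^ n / 2) := mul_le_mul_of_nonneg_left (by linarith) hx3
      refine le_trans ?_ h2
      refine hbad.trans ?_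
      have h3 : (y + (k + 1) ^ (n + 1)) * (2 * (p : ℝ) ^ (k * (2 * t + 1)) / κ ^ G) *
          ((p : ℝ) ^ n / 2) =
          (y + (k + 1) ^ (n + 1)) * (p : ℝ) ^ (n + k * (2 * t + 1)) / κ ^ G := by
        have hpa : (p : ℝ) ^ (n + k * (2 * t + 1)) = p ^ n * p ^ (k * (2 * t + 1)) :=
          pow_add _ _ _
        rw [hpa]
        field_simp
      rw [h3, le_div_iff₀ hκ']
      exact hFB
    linarith
  · -- only few positive inputs are accepted
    have hm : (minT A').card ≤ κ ^ k := by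
      refine min_card hG h1 hκ (fun b hb b' h => terms_up hb h) (fun b hb => ?_) hcl
      obtain ⟨⟨π, hπ⟩, _⟩ := mem_terms.1 hb
      exact ⟨_, hπ⟩
    have hcnt : ∀ b ∈ minT A', 2 ^ h * (univ.filter fun π : Equiv.Perm (Fin n) =>
        PosSat (y₀ ∘ π) b).card ≤ 2 ^ k * n.factorial := by
      intro b hb
      have hb' := (mem_minT.1 hb).1
      have hne : b ≠ ⊤ := fun he => htop (he ▸ hb')
      refine le_trans (Nat.mul_le_mul_left _ (card_le_card ?_))
        (count_union y₀ hy₀ (supp b) (supp_nonempty hne) (mem_terms.1 (hcl.1 hb')).2)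
      intro π hπ
      rw [mem_filter] at hπ ⊢
      refine ⟨mem_univ _, fun u v huv => ?_⟩
      have h3 : b.r (some u) (some v) := hπ.2 u v huv
      rw [mem_supp, mem_supp]
      exact not_congr ⟨fun h => b.trans (b.symm h3) h, fun h => b.trans h3 h⟩
    have hsub : (univ.filter fun π : Equiv.Perm (Fin n) =>
        accp π) ⊆ Bp ∪ (minT A').biUnion fun b =>
          univ.filter fun π : Equiv.Perm (Fin n) => PosSat (y₀ ∘ π) b := by
      intro π hπ
      rw [mem_filter] at hπ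
      rw [mem_union, mem_biUnion]
      rcases hP π hπ.2 with h2 | ⟨b, hb, h2⟩
      · exact Or.inl h2
      · obtain ⟨b', hb', hle⟩ := exists_minT (hAA' hb)
        exact Or.inr ⟨b', hb', by rw [mem_filter]; exact ⟨mem_univ _, h2.mono hle⟩⟩
    have hnf : (0 : ℝ) < n.factorial := by exact_mod_cast Nat.factorial_pos n
    have hcard : ((univ.filter fun π : Equiv.Perm (Fin n) => accp π).card : ℝ) ≤
        (x + κ ^ k * (2 ^ k / 2 ^ h)) * n.factorial := by
      have h2 : ((univ.filter fun π : Equiv.Perm (Fin n) =>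
          accp π).card : ℝ) ≤ Bp.card + ∑ b ∈ minT A',
          ((univ.filter fun π : Equiv.Perm (Fin n) => PosSat (y₀ ∘ π) b).card : ℝ) := by
        have h3 := (card_le_card hsub).trans ((card_union_le _ _).trans
          (Nat.add_le_add_left card_biUnion_le _))
        exact_mod_cast h3
      have h4 : ∑ b ∈ minT A',
          ((univ.filter fun π : Equiv.Perm (Fin n) => PosSat (y₀ ∘ π) b).card : ℝ) ≤
          κ ^ k * (2 ^ k / 2 ^ h) * n.factorial := by
        calc _ ≤ ∑ b ∈ minT A', ((2 : ℝ) ^ k / 2 ^ h) * n.factorial := by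
              apply sum_le_sum
              intro b hb
              have h5 : (2 : ℝ) ^ h * ((univ.filter fun π : Equiv.Perm (Fin n) =>
                PosSat (y₀ ∘ π) b).card : ℝ) ≤ 2 ^ k * n.factorial := by
                exact_mod_cast hcnt b hb
              have h6 : (0 : ℝ) < 2 ^ h := by positivity
              rw [div_mul_eq_mul_div, le_div_iff₀ h6]
              linarith
          _ = (minT A').card * (((2 : ℝ) ^ k / 2 ^ h) * n.factorial) := by
              rw [sum_const, nsmul_eq_mul]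
          _ ≤ (κ : ℝ) ^ k * (((2 : ℝ) ^ k / 2 ^ h) * n.factorial) := by
              apply mul_le_mul_of_nonneg_right _ (by positivity)
              exact_mod_cast hm
          _ = _ := by ring
      rw [add_mul]
      linarith
    have hpos : avg (fun π : Equiv.Perm (Fin n) => ind (accp π)) ≤
        x + κ ^ k * (2 ^ k / 2 ^ h) := by
      rw [avg_ind, Fintype.card_perm, Fintype.card_fin, div_le_iff₀ hnf]
      exact hcard
    have hav : 0 ≤ avg (fun f : {f : Fin n → ZMod p // ∑ v, f v ≠ 0} =>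
        ind (accn f.1)) := avg_nonneg fun _ => ind_nonneg _
    linarith

end SetCoverMono

namespace RealMono

open SetCoverMono

theorem ineq_real {p n k h t G κ : ℕ} [Fact p.Prime] (hG : G < 2 * t) (h1 : OneDim p k t G)
    (hκ : 0 < κ) (y₀ : Fin n → Fin k) (hy₀ : ∀ j, (univ.filter fun v => y₀ v = j).card = h)
    (hh : 2 * h ≤ n) (hn : 0 < n) {ι : Type}
    {a : (Finset (Fin n) → Prop) → ι → Prop} (ha : IsLit n h a) (C : RealMono.Circuit ι)
    (β : ℕ → Prop) (o : ℕ) :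
    avg (fun π : Equiv.Perm (Fin n) => ind (1 ≤ C.mval β (a (classes (y₀ ∘ π))) o)) ≤
      avg (fun f : {f : Fin n → ZMod p // ∑ v, f v ≠ 0} =>
        ind (1 ≤ C.mval β (a (zeros f.1)) o)) +
      (cnt C (o + 1) * ((2 * κ) ^ k * (2 * κ) ^ k * (3 ^ k * (n + 1)) / 2 ^ n) +
        κ ^ k * (2 ^ k / 2 ^ h) +
        (2 * cnt C (o + 1) + 1) * (2 * (((k + 1) ^ (n + 1) + 1) ^ 2 *
          p ^ (k * (2 * t + 1))) / κ ^ G)) := by
  obtain ⟨A, Bp, Bn, hBp, hBn, hA⟩ := approx_real hG h1 hκ y₀ hh ha C β (o + 1)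
  obtain ⟨hA1, hA2, hA3, hA4⟩ := hA o (Nat.lt_succ_self o)
  obtain ⟨N, hN⟩ : ∃ N, N = cnt C (o + 1) := ⟨_, rfl⟩
  rw [← hN] at hBp hBn ⊢
  obtain ⟨M, hM⟩ : ∃ M, M = (k + 1) ^ (n + 1) := ⟨_, rfl⟩
  have hMr : ((k : ℝ) + 1) ^ (n + 1) = M := by rw [hM]; push_cast; rfl
  rw [← hM] at hBn
  rw [hMr]
  have h2n : (0 : ℝ) < 2 ^ n := by positivity
  have hx : (Bp.card : ℝ) ≤ N * ((2 * κ) ^ k * (2 * κ) ^ k * (3 ^ k * (n + 1)) / 2 ^ n) *
      n.factorial := by
    have h4 : (2 : ℝ) ^ n * Bp.card ≤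
        N * ((2 * κ) ^ k * (2 * κ) ^ k * (3 ^ k * (n + 1) * n.factorial)) := by
      exact_mod_cast hBp
    calc (Bp.card : ℝ) = 2 ^ n * Bp.card / 2 ^ n := by field_simp
      _ ≤ N * ((2 * κ) ^ k * (2 * κ) ^ k * (3 ^ k * (n + 1) * n.factorial)) / 2 ^ n := by
          gcongr
      _ = _ := by ring
  have hy : (Bn.card : ℝ) * κ ^ G ≤ (N * (2 * ((M + 1) * M))) *
      (p : ℝ) ^ (n + k * (2 * t + 1)) := by
    have h4 : (κ : ℝ) ^ G * Bn.card ≤
        N * (2 * ((M + 1) * (M * p ^ (n + k * (2 * t + 1))))) := by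
      exact_mod_cast hBn
    calc (Bn.card : ℝ) * κ ^ G = κ ^ G * Bn.card := by ring
      _ ≤ _ := h4
      _ = _ := by ring
  have key := end_step hG h1 hκ y₀ hy₀ hn (hA1 1) (x := N * ((2 * κ) ^ k * (2 * κ) ^ k *
      (3 ^ k * (n + 1)) / 2 ^ n)) (y := N * (2 * ((M + 1) * M))) (by positivity) (by positivity)
      hx hy
      (accp := fun π => 1 ≤ C.mval β (a (classes (y₀ ∘ π))) o)
      (accn := fun f => 1 ≤ C.mval β (a (zeros f)) o)
      (fun π hπ => (hA3 π).imp id fun ⟨b, hb, h⟩ => ⟨b, hA2 _ _ hπ hb, h⟩)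
      (fun f hf => hA4 f 1 hf)
  refine key.trans ?_
  rw [hMr]
  have hM0 : (0 : ℝ) ≤ M := Nat.cast_nonneg _
  have hN0 : (0 : ℝ) ≤ N := Nat.cast_nonneg _
  have hκ' : (0 : ℝ) < (κ : ℝ) ^ G := by positivity
  have hz : (0 : ℝ) ≤ 2 * (p : ℝ) ^ (k * (2 * t + 1)) / κ ^ G := by positivity
  have h5 : (N * (2 * (((M : ℝ) + 1) * M)) + M) ≤ (2 * N + 1) * ((M : ℝ) + 1) ^ 2 := by
    nlinarith [mul_nonneg hN0 hM0]
  have h6 : (2 * (N : ℝ) + 1) * (2 * (((M : ℝ) + 1) ^ 2 * p ^ (k * (2 * t + 1))) / κ ^ G) =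
      (2 * N + 1) * ((M : ℝ) + 1) ^ 2 * (2 * (p : ℝ) ^ (k * (2 * t + 1)) / κ ^ G) := by
    ring
  rw [h6]
  have h7 := mul_le_mul_of_nonneg_right h5 hz
  linarith

end RealMono
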