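import Pool.Agent.Lib.MP_8fffab_lc_RG.Circ

/-! Separation of `x ≤ y` by monotone functions. -/

open Finset

namespace RealMono

theorem mval_mono {ι : Type} (C : Circuit ι) (β : ℕ → Prop) {x y : ι → Prop}
    (hxy : ∀ v, x v → y v) (i : ℕ) : C.mval β x i ≤ C.mval β y i := by
  induction i using Nat.strong_induction_on with
  | _ i ih =>
    cases hC : C i with
    | input v =>
      unfold Circuit.mval; rw [hC]
      exact bit_mono (hxy v)
    | const b => unfold Circuit.mval; rw [hC]
    | mono g hg a b =>
      unfold Circuit.mval; rw [hC]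
      exact hg _ _ _ _ (ih a a.isLt) (ih b b.isLt)
    | max S =>
      unfold Circuit.mval; rw [hC]
      by_cases hS : S.Nonempty
      · simp only [dif_pos hS]
        apply sup'_le
        intro a ha
        exact (ih a a.isLt).trans (le_sup' (fun a : Fin i => C.mval β y a) ha)
      · simp only [dif_neg hS]
        exact le_rfl
    | other r w g => unfold Circuit.mval; rw [hC]

/-- If the constants are the right ones below `i`, then `mval` is `val`. -/
theorem mval_eq {ι : Type} (C : Circuit ι) (β : ℕ → Prop) (x : ι → Prop) (i : ℕ)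
    (h : ∀ j ≤ i, (C j).isOther = true → (β j ↔ 1 ≤ C.val x j)) : C.mval β x i = C.val x i := by
  induction i using Nat.strong_induction_on with
  | _ i ih =>
    have ih' : ∀ a : Fin i, C.mval β x a = C.val x a := fun a =>
      ih a a.isLt (fun j hj hn => h j (hj.trans a.isLt.le) hn)
    cases hC : C i with
    | input v => unfold Circuit.mval Circuit.val; rw [hC]
    | const b => unfold Circuit.mval Circuit.val; rw [hC]
    | mono g hg a b =>
      unfold Circuit.mval Circuit.val
      rw [hC]
      simp only [ih']
    | max S =>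
      unfold Circuit.mval Circuit.val
      rw [hC]
      simp only [ih']
    | other r w g =>
      have h1 := h i le_rfl (by rw [hC]; rfl)
      have h2 : C.val x i = bit (g fun l => 1 ≤ C.val x (w l)) := by
        rw [Circuit.val, hC]
      unfold Circuit.mval
      rw [hC]
      simp only
      rw [h2] at h1 ⊢
      rw [one_le_bit] at h1
      rw [propext h1]

/-- The input gates of a gate of the last kind. -/
def pre {i : ℕ} {ι : Type} (G : Gate ι i) : Finset ℕ :=
  match G with
  | .other _ w _ => univ.image fun l => (w l : ℕ)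
  | _ => ∅

theorem card_pre {i : ℕ} {ι : Type} (G : Gate ι i) : (pre G).card ≤ G.wires := by
  cases G with
  | other r w g =>
    refine (card_image_le).trans ?_
    rw [card_univ, Fintype.card_fin]
    exact le_rfl
  | _ => simp [pre, Gate.wires]

theorem lt_of_mem_pre {i : ℕ} {ι : Type} {G : Gate ι i} {j : ℕ} (h : j ∈ pre G) : j < i := by
  cases G with
  | other r w g =>
    simp only [pre, mem_image, mem_univ, true_and] at h
    obtain ⟨l, rfl⟩ := h
    exact (w l).isLt
  | _ => simp [pre] at h

/-- If a circuit separates `x ≤ y`, then so does one of `(w + 1) * 2 ^ t` monotone functions. -/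
theorem separate {ι : Type} (C : Circuit ι) (o : ℕ) :
    ∃ H : Finset (ℕ × Finset ℕ), H.card ≤ (C.numWires o + 1) * 2 ^ C.numOther o ∧
      (∀ h ∈ H, h.1 ≤ o) ∧
      ∀ x y : ι → Prop, (∀ v, x v → y v) → ¬ 1 ≤ C.val x o → 1 ≤ C.val y o →
        ∃ h ∈ H, ¬ 1 ≤ C.mval (fun j => j ∈ h.2) x h.1 ∧ 1 ≤ C.mval (fun j => j ∈ h.2) y h.1 := by
  classical
  set J : Finset ℕ := (range (o + 1)).filter fun i => (C i).isOther = true with hJ
  have hJc : J.card = C.numOther o := rfl
  refine ⟨(insert o ((range (o + 1)).biUnion fun j => pre (C j))) ×ˢ J.powerset, ?_, ?_, ?_⟩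
  · rw [card_product, card_powerset, hJc]
    apply Nat.mul_le_mul_right
    refine (card_insert_le _ _).trans ?_
    apply Nat.add_le_add_right
    refine card_biUnion_le.trans ?_
    exact sum_le_sum fun j _ => card_pre _
  · intro h hh
    rw [mem_product, mem_insert, mem_biUnion] at hh
    rcases hh.1 with h1 | ⟨j, hj, h1⟩
    · rw [h1]
    · exact (lt_of_mem_pre h1).le.trans (Nat.lt_succ_iff.1 (mem_range.1 hj))
  · intro x y hxy hx hy
    set P : Finset ℕ := J.filter fun j => 1 ≤ C.val x j with hP
    have hPJ : P ∈ J.powerset := by rw [mem_powerset]; exact filter_subset _ _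
    have hPx : ∀ j ≤ o, (C j).isOther = true → (j ∈ P ↔ 1 ≤ C.val x j) := by
      intro j hj hn
      rw [hP, mem_filter, hJ, mem_filter, mem_range]
      exact ⟨fun h => h.2, fun h => ⟨⟨Nat.lt_succ_iff.2 hj, hn⟩, h⟩⟩
    by_cases hall : ∀ j ≤ o, (C j).isOther = true → (1 ≤ C.val x j ↔ 1 ≤ C.val y j)
    · refine ⟨(o, P), ?_, ?_, ?_⟩
      · rw [mem_product]; exact ⟨mem_insert_self _ _, hPJ⟩
      · rw [mval_eq C _ x o (fun j hj hn => hPx j hj hn)]
        exact hx
      · rw [mval_eq C _ y o (fun j hj hn => (hPx j hj hn).trans (hall j hj hn))]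
        exact hy
    · have hex : ∃ j, j ≤ o ∧ (C j).isOther = true ∧ ¬ (1 ≤ C.val x j ↔ 1 ≤ C.val y j) := by
        by_contra hno
        apply hall
        intro j hj hn
        by_contra h
        exact hno ⟨j, hj, hn, h⟩
      obtain ⟨hj1, hj2, hj3⟩ := Nat.find_spec hex
      have hmin := fun m hm => Nat.find_min hex (m := m) hm
      set j := Nat.find hex with hjdef
      cases hC : C j with
      | other r w g =>
        have hvx : 1 ≤ C.val x j ↔ g fun l => 1 ≤ C.val x (w l) := by
          rw [Circuit.val.eq_def, hC]
          exact one_le_bit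
        have hvy : 1 ≤ C.val y j ↔ g fun l => 1 ≤ C.val y (w l) := by
          rw [Circuit.val.eq_def, hC]
          exact one_le_bit
        have hne : ∃ l, ¬ (1 ≤ C.val x (w l) ↔ 1 ≤ C.val y (w l)) := by
          by_contra hno
          push Not at hno
          apply hj3
          rw [hvx, hvy]
          have : (fun l => 1 ≤ C.val x (w l)) = fun l => 1 ≤ C.val y (w l) :=
            funext fun l => propext (hno l)
          rw [this]
        obtain ⟨l, hl⟩ := hne
        have haj : (w l : ℕ) < j := (w l).isLt
        have hbelow : ∀ i ≤ (w l : ℕ), (C i).isOther = true →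
            (1 ≤ C.val x i ↔ 1 ≤ C.val y i) := by
          intro i hi hn
          by_contra h
          exact hmin i (lt_of_le_of_lt hi haj) ⟨((hi.trans haj.le).trans hj1), hn, h⟩
        have hmx := mval_eq C (fun j => j ∈ P) x (w l)
          (fun i hi hn => hPx i ((hi.trans haj.le).trans hj1) hn)
        have hmy := mval_eq C (fun j => j ∈ P) y (w l)
          (fun i hi hn => (hPx i ((hi.trans haj.le).trans hj1) hn).trans (hbelow i hi hn))
        have hmono := mval_mono C (fun j => j ∈ P) hxy (w l)
        rw [hmx, hmy] at hmono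
        refine ⟨((w l : ℕ), P), ?_, ?_, ?_⟩
        · rw [mem_product]
          refine ⟨mem_insert_of_mem (mem_biUnion.2
            ⟨j, mem_range.2 (Nat.lt_succ_iff.2 hj1), ?_⟩), hPJ⟩
          rw [hC]
          simp only [pre, mem_image, mem_univ, true_and]
          exact ⟨l, rfl⟩
        · change ¬ 1 ≤ C.mval (fun j => j ∈ P) x (w l)
          rw [hmx]
          intro h
          exact hl ⟨fun _ => h.trans hmono, fun _ => h⟩
        · change 1 ≤ C.mval (fun j => j ∈ P) y (w l)
          rw [hmy]
          by_contra h
          exact hl ⟨fun h' => absurd (h'.trans hmono) h, fun h' => absurd h' h⟩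
      | input v => rw [hC] at hj2; exact absurd hj2 (by simp [Gate.isOther])
      | const b => rw [hC] at hj2; exact absurd hj2 (by simp [Gate.isOther])
      | mono g hg a b => rw [hC] at hj2; exact absurd hj2 (by simp [Gate.isOther])
      | max S => rw [hC] at hj2; exact absurd hj2 (by simp [Gate.isOther])

end RealMono
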