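import Pool.Agent.Lib.MP_8fffab_lc_RG.Chain
import Pool.Agent.Lib.MP_8fffab_lc_RG.Sep
import Pool.Agent.Lib.MP_8fffab_lc_RG.End
import Pool.Agent.Lib.MP_8fffab_lc_RG.CoreNum
import Pool.Agent.Lib.MP_8fffab_lc_NM.Main

/-! The lower bound for real circuits with few further gates. -/

open Finset FewNeg

namespace RealMono

open SetCoverMono (classes zeros col)
open AlmostMono (Reach IsPart TagPt fam fam_lit fam_mono exists_equiv embed_iff lev Xs Ys yes_part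
  no_part)

theorem bit_eq_ind (p : Prop) : bit p = ind p := by
  by_cases h : p
  · rw [bit_true h, ind_true h]
  · rw [bit_false h, ind_false h]

theorem core_real {k : ℕ} (hk : 2 ≤ k) {η : ℝ} (hη : 0 < η) : ∃ (p : ℕ) (_ : Fact p.Prime)
    (u₀ : ℕ), 0 < u₀ ∧ ∀ u ≥ u₀, ∀ y₀ : Fin (k * u) → Fin k,
      (∀ j, (univ.filter fun v => y₀ v = j).card = u) →
      ∀ (ι : Type) (a : (Finset (Fin (k * u)) → Prop) → ι → Prop),
      SetCoverMono.IsLit (k * u) u a →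
      ∀ (C : Circuit ι) (β : ℕ → Prop) (o : ℕ),
        avg (fun π : Equiv.Perm (Fin (k * u)) =>
          ind (1 ≤ C.mval β (a (classes (y₀ ∘ π))) o)) ≤
          avg (fun f : {f : Fin (k * u) → ZMod p // ∑ v, f v ≠ 0} =>
            ind (1 ≤ C.mval β (a (zeros f.1)) o)) +
          (C.numMono o * (2 : ℝ) ^ (-((1 - η) * (k * u : ℕ))) + (2 : ℝ) ^ (-((u : ℝ) / 4))) := by
  obtain ⟨H, G, hH, hnum⟩ := core_num hk hη
  obtain ⟨p, t, hp, hG, h1⟩ := SetCoverMono.one_dim k G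
  obtain ⟨u₀, hu₀⟩ := hnum p t
  refine ⟨p, hp, u₀ + 1, Nat.succ_pos _, ?_⟩
  intro u hu y₀ hy₀ ι a ha C β o
  obtain ⟨κ, hκ⟩ : ∃ κ, κ = 2 ^ (k * u / H) := ⟨_, rfl⟩
  have hκ0 : 0 < κ := by rw [hκ]; positivity
  obtain ⟨n1, n2⟩ := hu₀ u (by omega) (k * u) κ rfl hκ
  have h2u : 2 * u ≤ k * u := Nat.mul_le_mul_right _ hk
  have hmain := ineq_real hG h1 hκ0 y₀ hy₀ h2u (by omega) ha C β o
  refine hmain.trans ?_
  have hcnt : cnt C (o + 1) = C.numMono o := rfl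
  rw [hcnt]
  have hN : (0 : ℝ) ≤ C.numMono o := Nat.cast_nonneg _
  obtain ⟨x1, hx1⟩ : ∃ x1 : ℝ, x1 = (2 * κ) ^ k * (2 * κ) ^ k *
    (3 ^ k * ((k * u : ℕ) + 1)) / 2 ^ (k * u) := ⟨_, rfl⟩
  obtain ⟨x2, hx2⟩ : ∃ x2 : ℝ, x2 = (κ : ℝ) ^ k * (2 ^ k / 2 ^ u) := ⟨_, rfl⟩
  obtain ⟨x3, hx3⟩ : ∃ x3 : ℝ, x3 = 2 * ((((k : ℝ) + 1) ^ (k * u + 1) + 1) ^ 2 *
    p ^ (k * (2 * t + 1))) / κ ^ G := ⟨_, rfl⟩
  rw [← hx1, ← hx3] at n1
  rw [← hx2, ← hx3] at n2
  rw [← hx1, ← hx2, ← hx3]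
  nlinarith

theorem main_k {k : ℕ} (hk : 2 ≤ k) {ε : ℝ} (hε : 0 < ε) : ∃ δ : ℝ, 0 < δ ∧ ∃ h₀ : ℕ, ∀ h ≥ h₀,
    ∀ n, k * h ≤ n → ∀ (s t w : ℕ) (γ : ℝ), 0 < γ →
      ((w : ℝ) + 1) * 2 ^ t ≤ γ * 2 ^ (δ * (k * h : ℕ)) →
      HasRandomCircuit (n.choose h) n k s t w γ → (2 : ℝ) ^ ((1 - ε) * (k * h : ℕ)) ≤ s := by
  classical
  -- without loss of generality `ε ≤ 1`
  wlog hε1 : ε ≤ 1 with hwlog
  · obtain ⟨δ, hδ, h₀, h1⟩ := hwlog hk (zero_lt_one' ℝ) le_rfl
    refine ⟨δ, hδ, h₀, fun h hh n hn s t w γ hγ hw hC => ?_⟩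
    refine le_trans ?_ (h1 h hh n hn s t w γ hγ hw hC)
    apply Real.rpow_le_rpow_of_exponent_le (by norm_num)
    apply mul_le_mul_of_nonneg_right _ (Nat.cast_nonneg _)
    linarith
  obtain ⟨p, hp, u₀, hu₀, hcore⟩ := core_real hk (half_pos hε)
  have hk0 : (0 : ℝ) < k := by
    have : 0 < k := by omega
    exact_mod_cast this
  have hk1 : (1 : ℝ) ≤ k := by
    have : 1 ≤ k := by omega
    exact_mod_cast this
  obtain ⟨h₁, hh₁⟩ := exists_nat_ge (64 / ε)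
  refine ⟨ε / 16 / (2 * k), by positivity, h₁ + 4 * u₀ + 16, ?_⟩
  intro h hh n hn s t w γ hγ hw hC
  by_contra hcon
  rw [not_le] at hcon
  have hhε : 64 ≤ ε * h := by
    have h1 : (h₁ : ℝ) ≤ h := by
      have : h₁ ≤ h := by omega
      exact_mod_cast this
    have h2 : 64 / ε ≤ h := hh₁.trans h1
    rw [div_le_iff₀ hε] at h2
    linarith
  have hh16 : (16 : ℝ) ≤ h := by
    have : 16 ≤ h := by omega
    exact_mod_cast this
  -- the number of levels
  obtain ⟨B, hB⟩ : ∃ B : ℕ, B = ⌊ε / 16 * h⌋₊ := ⟨_, rfl⟩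
  have hB1 : (B : ℝ) ≤ ε / 16 * h := by
    rw [hB]; exact Nat.floor_le (by positivity)
  have hB2 : ε / 16 * h < B + 1 := by
    rw [hB]; exact Nat.lt_floor_add_one _
  have hBh : (B : ℝ) ≤ h / 16 := by nlinarith
  have hle : 2 * B + 2 ≤ h := by
    have : (2 * (B : ℝ) + 2) ≤ h := by linarith
    exact_mod_cast this
  obtain ⟨u, hu⟩ : ∃ u, h = u + (2 * B + 2) := ⟨h - (2 * B + 2), by omega⟩
  have hur : (u : ℝ) = h - (2 * B + 2) := by
    rw [hu]; push_cast; ring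
  have hu0 : u₀ ≤ u := by
    have h1 : (4 * (u₀ : ℝ) + 16) ≤ h := by
      have : 4 * u₀ + 16 ≤ h := by omega
      exact_mod_cast this
    have h2 : (u₀ : ℝ) ≤ u := by
      rw [hur]
      have : (0 : ℝ) ≤ u₀ := Nat.cast_nonneg _
      linarith
    exact_mod_cast h2
  have hku : 0 < k * u := Nat.mul_pos (by omega) (by omega)
  obtain ⟨φ⟩ := exists_equiv (k := k) hu
  obtain ⟨Γ, hlit, hiff⟩ := embed_iff (k := k) (h := h) (by omega) (by omega) hn
  obtain ⟨M, P, C, o, hP0, hP1, hCs, hyes, hno⟩ := hC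
  have hΩ : Nonempty {f : Fin (k * u) → ZMod p // ∑ v, f v ≠ 0} := by
    rw [← Fintype.card_pos_iff]
    have h1 := SetCoverMono.card_nonzero (p := p) hku
    have h2 : 0 < p ^ (k * u) := pow_pos hp.out.pos _
    omega
  obtain ⟨a, ha⟩ : ∃ a : Set ((Fin B → Bool) × Finset (Fin (k * u))) →
      Fin (n.choose h) × Fin n → Prop, a = fun S q => Γ (fam φ S) q.1 q.2 := ⟨_, rfl⟩
  -- every input is constant or a membership
  have halit : ∀ q, (∀ S, ¬ a S q) ∨ ∃ (i : Fin B → Bool) (A : Finset (Fin (k * u))),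
      A.card = u ∧ ∀ S, a S q ↔ (i, A) ∈ S := by
    intro q
    rw [ha]
    rcases hlit q.1 q.2 with h1 | ⟨H, -, h1⟩
    · exact Or.inl fun S => h1 _
    · rcases fam_lit hk φ H with h2 | ⟨i, A, hA, h2⟩
      · exact Or.inl fun S hS => h2 S ((h1 _).1 hS)
      · exact Or.inr ⟨i, A, hA, fun S => (h1 _).trans (h2 S)⟩
  have hamono : ∀ S S' : Set ((Fin B → Bool) × Finset (Fin (k * u))), S ⊆ S' →
      ∀ v, a S v → a S' v := by
    intro S S' hS q hq
    rcases halit q with h1 | ⟨i, A, -, h1⟩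
    · exact absurd hq (h1 S)
    · exact (h1 S').2 (hS ((h1 S).1 hq))
  obtain ⟨e, he⟩ : ∃ e : ℝ, e = s * (2 : ℝ) ^ (-((1 - ε / 2) * (k * u : ℕ))) +
    (2 : ℝ) ^ (-((u : ℝ) / 4)) := ⟨_, rfl⟩
  have he0 : 0 ≤ e := by rw [he]; positivity
  -- the monotone pieces
  choose H hH1 hH2 hH3 using fun j => separate (C j) (o j)
  obtain ⟨F, hF⟩ : ∃ F : Fin M → ℕ × Finset ℕ →
      Set ((Fin B → Bool) × Finset (Fin (k * u))) → Prop,
      F = fun j x S => 1 ≤ (C j).mval (fun i => i ∈ x.2) (a S) x.1 := ⟨_, rfl⟩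
  have hmono : ∀ j, ∀ l < 2 ^ B, ∀ x ∈ H j,
      ∀ G : Set ((Fin B → Bool) × Finset (Fin (k * u))), Reach (Xs k u B p) l G →
      avg (fun z => ind (F j x (G ∪ Ys k u B l z))) ≤
        avg (fun ω => ind (F j x (G ∪ Xs k u B p l ω))) + e := by
    intro j l _ x hx G _
    have hL : SetCoverMono.IsLit (k * u) u (fun (x : Finset (Fin (k * u)) → Prop) q =>
        a (G ∪ {e | e.1 = lev B l ∧ x e.2}) q) := by
      intro q
      rcases halit q with h1 | ⟨i', A, hA, h1⟩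
      · exact Or.inr (Or.inl fun x => h1 _)
      · by_cases hG : (i', A) ∈ G
        · exact Or.inl fun x => (h1 _).2 (Or.inl hG)
        · by_cases hi' : i' = lev B l
          · refine Or.inr (Or.inr ⟨A, hA, fun x => (h1 _).trans ?_⟩)
            constructor
            · rintro (h2 | h2)
              · exact absurd h2 hG
              · exact h2.2
            · exact fun h2 => Or.inr ⟨hi', h2⟩
          · refine Or.inr (Or.inl fun x hx => ?_)
            rcases (h1 _).1 hx with h2 | h2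
            · exact hG h2
            · exact hi' h2.1
    have h1 := hcore u hu0 (col k u) (SetCoverMono.card_col k u) _ _ hL (C j)
      (fun i => i ∈ x.2) x.1
    have h2 : ((C j).numMono x.1 : ℝ) ≤ s := by
      have h3 : (C j).numMono x.1 ≤ (C j).numMono (o j) := by
        unfold Circuit.numMono
        apply card_le_card
        intro i hi
        rw [mem_filter, mem_range] at hi ⊢
        have := hH2 j x hx
        exact ⟨by omega, hi.2⟩
      exact_mod_cast h3.trans (hCs j).1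
    have h3 : ((C j).numMono x.1 : ℝ) * (2 : ℝ) ^ (-((1 - ε / 2) * (k * u : ℕ))) +
        (2 : ℝ) ^ (-((u : ℝ) / 4)) ≤ e := by
      rw [he]
      gcongr
    rw [hF]
    exact h1.trans (add_le_add_right h3 _)
  have hcast : ∀ S : Set ((Fin B → Bool) × Finset (Fin (k * u))),
      (fun q : Fin (n.choose h) × Fin n => Γ (fam φ S) q.1 q.2) = a S := fun S => by rw [ha]
  have hmain := rand_bound (X := Xs k u B p) (Y := Ys k u B) (m := 2 ^ B) (δ := γ)
    (W := γ * 2 ^ (ε / 16 / (2 * k) * (k * h : ℕ))) he0 hP0 hP1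
    (V := fun j S => 1 ≤ (C j).val (a S) (o j)) (F := F) (H := H)
    (fun j => by
      refine le_trans ?_ hw
      have h1 : (H j).card ≤ (w + 1) * 2 ^ t :=
        (hH1 j).trans (Nat.mul_le_mul (Nat.add_le_add_right (hCs j).2.2 1)
          (Nat.pow_le_pow_right (by norm_num) (hCs j).2.1))
      exact_mod_cast h1)
    (fun j x _ S S' hS hFS => by
      rw [hF] at hFS ⊢
      exact le_trans hFS (mval_mono (C j) _ (hamono S S' hS) x.1))
    (fun j S S' hS h1 h2 => by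
      rw [hF]
      exact hH3 j (a S) (a S') (hamono S S' hS) h1 h2)
    hmono
    (fun l _ S z _ => by
      have h1 := hyes (Γ (fam φ (S ∪ Ys k u B l z))) ((hiff _).2 (yes_part hk hu φ l S z))
      rw [hcast] at h1
      simpa only [Prob, bit_eq_ind] using h1)
    (fun l hl S hS => by
      have h1 := hno (Γ (fam φ S)) (fun hc => no_part hk φ hl.le hS ((hiff _).1 hc))
      rw [hcast] at h1
      simpa only [Prob, bit_eq_ind] using h1)
  -- numerics
  have two_pos : (0 : ℝ) < 2 := by norm_num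
  have hMB : (2 : ℝ) ^ B = 2 ^ (B : ℝ) := (Real.rpow_natCast 2 B).symm
  have hbig1 : (2 : ℝ) ^ (B : ℝ) * (s * (2 : ℝ) ^ (-((1 - ε / 2) * (k * u : ℕ)))) ≤ 1 := by
    calc (2 : ℝ) ^ (B : ℝ) * (s * (2 : ℝ) ^ (-((1 - ε / 2) * (k * u : ℕ))))
        ≤ (2 : ℝ) ^ (B : ℝ) * ((2 : ℝ) ^ ((1 - ε) * (k * h : ℕ)) *
            (2 : ℝ) ^ (-((1 - ε / 2) * (k * u : ℕ)))) := by
          have := hcon.le
          gcongr
      _ = (2 : ℝ) ^ ((B : ℝ) + ((1 - ε) * (k * h : ℕ) + -((1 - ε / 2) * (k * u : ℕ)))) := by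
          rw [← Real.rpow_add two_pos, ← Real.rpow_add two_pos]
      _ ≤ 1 := by
          apply Real.rpow_le_one_of_one_le_of_nonpos (by norm_num)
          push_cast
          rw [hur]
          have h1 : (0 : ℝ) ≤ h := Nat.cast_nonneg _
          have h2 : (0 : ℝ) ≤ 1 - ε / 2 := by linarith
          have h3 : (1 - ε / 2) * (k * (h - (2 * B + 2))) ≥
              (1 - ε / 2) * (k * (h - (ε / 8 * h + 2))) := by
            apply mul_le_mul_of_nonneg_left _ h2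
            apply mul_le_mul_of_nonneg_left _ hk0.le
            linarith
          have h4 : (1 - ε / 2) * (k * (h - (ε / 8 * h + 2))) ≥
              k * ((1 - ε / 2 - ε / 8) * h - 2) := by
            have h5 : (1 - ε / 2) * (k * (h - (ε / 8 * h + 2))) -
                k * ((1 - ε / 2 - ε / 8) * h - 2) = k * (ε / 2 * (ε / 8) * h + ε) := by ring
            have h6 : 0 ≤ k * (ε / 2 * (ε / 8) * h + ε) := by positivity
            linarith
          have h7 : (B : ℝ) + (1 - ε) * (k * h) - k * ((1 - ε / 2 - ε / 8) * h - 2) ≤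
              ε / 16 * h - k * (3 * ε / 8 * h - 2) := by
            have : (1 - ε) * (k * h) - k * ((1 - ε / 2 - ε / 8) * h - 2) =
              - (k * (3 * ε / 8 * h - 2)) := by ring
            linarith
          have h8 : ε / 16 * h ≤ k * (ε / 16 * h) := by
            have : 0 ≤ ε / 16 * h := by positivity
            nlinarith
          have h9 : k * (ε / 16 * h) - k * (3 * ε / 8 * h - 2) = k * (2 - 5 / 16 * (ε * h)) := by
            ring
          have h10 : k * (2 - 5 / 16 * (ε * h)) ≤ 0 := by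
            apply mul_nonpos_of_nonneg_of_nonpos hk0.le
            linarith
          linarith
  have hbig2 : (2 : ℝ) ^ (B : ℝ) * (2 : ℝ) ^ (-((u : ℝ) / 4)) ≤ 1 := by
    rw [← Real.rpow_add two_pos]
    apply Real.rpow_le_one_of_one_le_of_nonpos (by norm_num)
    rw [hur]
    linarith
  have hme : ((2 ^ B : ℕ) : ℝ) * e ≤ 2 := by
    push_cast
    rw [hMB, he, mul_add]
    linarith
  have hfin : 2 * γ * ((2 ^ B : ℕ) : ℝ) ≤ γ * 2 ^ (ε / 16 / (2 * k) * (k * h : ℕ)) * 3 := by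
    refine hmain.trans ?_
    apply mul_le_mul_of_nonneg_left _ (by positivity)
    linarith
  have hexp : (2 : ℝ) ^ (ε / 16 / (2 * k) * (k * h : ℕ)) * 4 ≤ (2 : ℝ) ^ (B : ℝ) * 2 := by
    have h4 : (4 : ℝ) = 2 ^ (2 : ℝ) := by norm_num
    have h2 : (2 : ℝ) ^ (B : ℝ) * 2 = 2 ^ ((B : ℝ) + 1) := by
      rw [Real.rpow_add two_pos, Real.rpow_one]
    rw [h2, h4, ← Real.rpow_add two_pos]
    apply Real.rpow_le_rpow_of_exponent_le (by norm_num)
    push_cast
    have h3 : ε / 16 / (2 * k) * (k * h) = ε * h / 32 := by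
      field_simp
      ring
    rw [h3]
    linarith
  push_cast at hfin
  rw [hMB] at hfin
  have hpos : (0 : ℝ) < (2 : ℝ) ^ (ε / 16 / (2 * k) * (k * h : ℕ)) := by positivity
  have hpos' : (0 : ℝ) < γ * (2 : ℝ) ^ (ε / 16 / (2 * k) * (k * h : ℕ)) := by positivity
  have h11 : γ * ((2 : ℝ) ^ (ε / 16 / (2 * k) * (k * h : ℕ)) * 4) ≤
      γ * ((2 : ℝ) ^ (B : ℝ) * 2) := mul_le_mul_of_nonneg_left hexp hγ.le
  push_cast at hpos' h11
  linarith

theorem main_b (b : ℝ) (hb0 : 0 ≤ b) (hb : b < 2) (c : ℕ) : ∃ k₀ : ℕ, ∀ k ≥ k₀, ∃ δ : ℝ, 0 < δ ∧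
    ∃ n₀ : ℕ, ∀ n ≥ n₀, ∀ (s t w : ℕ) (γ : ℝ), 0 < γ →
      ((w : ℝ) + 1) * 2 ^ t ≤ γ * 2 ^ (δ * n) →
      HasRandomCircuit (n.choose (n / k)) n k s t w γ →
        b ^ n * ((n.choose (n / k) : ℝ) * n) ^ c ≤ s := by
  obtain ⟨η, hη, k₀, hk₀, hnum⟩ := SetCoverMono.num_bound b hb hb0 c
  refine ⟨k₀, fun k hk => ?_⟩
  obtain ⟨n₁, hn₁⟩ := hnum k hk
  have hk2 : 2 ≤ k := hk₀.trans hk
  obtain ⟨δ, hδ, h₀, hmain⟩ := main_k hk2 hη
  refine ⟨δ / 2, by positivity, n₁ + k * h₀ + 2 * k, ?_⟩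
  intro n hn s t w γ hγ hw hC
  have hkpos : 0 < k := by omega
  have h3 : h₀ ≤ n / k := (Nat.le_div_iff_mul_le hkpos).2 (by rw [mul_comm]; omega)
  have h4 : k * (n / k) ≤ n := Nat.mul_div_le n k
  have h5 : n ≤ 2 * (k * (n / k)) := by
    have h6 : n < k * (n / k) + k := by
      have := Nat.lt_mul_div_succ n hkpos
      linarith [Nat.mul_succ k (n / k)]
    omega
  have h6 := hmain (n / k) h3 n h4 s t w γ hγ (by
    refine hw.trans ?_
    apply mul_le_mul_of_nonneg_left _ hγ.le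
    apply Real.rpow_le_rpow_of_exponent_le (by norm_num)
    have h7 : (n : ℝ) ≤ 2 * (k * (n / k : ℕ) : ℕ) := by exact_mod_cast h5
    calc δ / 2 * n ≤ δ / 2 * (2 * (k * (n / k : ℕ) : ℕ)) :=
          mul_le_mul_of_nonneg_left h7 (by positivity)
      _ = δ * (k * (n / k : ℕ) : ℕ) := by ring) hC
  refine (hn₁ n (by omega)).trans ?_
  push_cast at h6 ⊢
  exact h6

end RealMono
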