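import Pool.Agent.Lib.MP_8fffab_lc_NM.Sep

/-! The bound for a chain of random sets, in abstract form. -/

open Finset FewNeg AlmostMono

namespace RealMono

variable {E Ω Z κ : Type} [Fintype Ω] [Nonempty Ω] [Fintype Z] [Nonempty Z]
  {X : ℕ → Ω → Set E} {Y : ℕ → Z → Set E}

/-- Chain bound for one acceptance predicate `V` which can be separated by the monotone
predicates `F h`. -/
theorem chain_bound {e : ℝ} (he : 0 ≤ e) {V : Set E → Prop} {F : κ → Set E → Prop}
    {H : Finset κ} {W : ℝ} (hW : (H.card : ℝ) ≤ W)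
    (hF : ∀ h ∈ H, ∀ S S', S ⊆ S' → F h S → F h S')
    (hsep : ∀ S S', S ⊆ S' → ¬ V S → V S' → ∃ h ∈ H, ¬ F h S ∧ F h S') (m : ℕ)
    (hmono : ∀ l < m, ∀ h ∈ H, ∀ G : Set E, Reach X l G →
      avg (fun z => ind (F h (G ∪ Y l z))) ≤ avg (fun ω => ind (F h (G ∪ X l ω))) + e) :
    (m : ℝ) ≤ (∑ l ∈ range m, Ex X l (fun S => ind (V S) +
        avg (fun z => ind (¬ V (S ∪ Y l z))))) + W * (1 + m * e) := by
  classical
  obtain ⟨B, hB⟩ : ∃ B : ℕ → Set E → ℝ, B = fun l S => ind (V S) +
        avg (fun z => ind (¬ V (S ∪ Y l z))) := ⟨_, rfl⟩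
  have hBB : ∀ l, Ex X l (fun S => ind (V S) +
        avg (fun z => ind (¬ V (S ∪ Y l z)))) = Ex X l (B l) := fun l => by rw [hB]
  simp only [hBB]
  -- the pointwise inequality
  have key : ∀ l < m, ∀ S : Set E, Reach X l S →
      (1 : ℝ) ≤ B l S + ∑ h ∈ H, (avg (fun ω => ind (F h (S ∪ X l ω))) - ind (F h S) + e) := by
    intro l hl S hS
    have hnn : ∀ h ∈ H, 0 ≤ avg (fun ω => ind (F h (S ∪ X l ω))) - ind (F h S) + e := by
      intro h hh
      have : ind (F h S) ≤ avg (fun ω => ind (F h (S ∪ X l ω))) := by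
        calc ind (F h S) = avg (fun _ : Ω => ind (F h S)) := (avg_const _).symm
          _ ≤ _ := avg_mono fun ω => ind_mono (hF h hh _ _ Set.subset_union_left)
      linarith
    have hsn := sum_nonneg hnn
    have hav : 0 ≤ avg (fun z => ind (¬ V (S ∪ Y l z))) := avg_nonneg fun _ => ind_nonneg _
    by_cases hv : V S
    · rw [hB]
      simp only
      rw [ind_true hv]
      linarith
    · have h1 : (1 : ℝ) ≤ avg (fun z => ind (¬ V (S ∪ Y l z))) +
          ∑ h ∈ H, avg (fun z : Z => ind (¬ F h S ∧ F h (S ∪ Y l z))) := by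
        rw [← avg_sum, ← avg_add]
        calc (1 : ℝ) = avg (fun _ : Z => (1 : ℝ)) := (avg_const 1).symm
          _ ≤ _ := by
            apply avg_mono
            intro z
            have hs0 : 0 ≤ ∑ h ∈ H, ind (¬ F h S ∧ F h (S ∪ Y l z)) :=
              sum_nonneg fun h _ => ind_nonneg _
            by_cases hz : V (S ∪ Y l z)
            · obtain ⟨h, hh, hs⟩ := hsep S (S ∪ Y l z) Set.subset_union_left hv hz
              have h2 := single_le_sum (f := fun h => ind (¬ F h S ∧ F h (S ∪ Y l z)))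
                  (fun h _ => ind_nonneg _) hh
              rw [ind_true hs] at h2
              have h3 := ind_nonneg (¬ V (S ∪ Y l z))
              linarith
            · rw [ind_true hz]
              linarith
      have h2 : ∀ h ∈ H, avg (fun z : Z => ind (¬ F h S ∧ F h (S ∪ Y l z)))
            ≤ avg (fun ω => ind (F h (S ∪ X l ω))) - ind (F h S) + e := by
        intro h hh
        by_cases hm : F h S
        · have h3 : avg (fun z : Z => ind (¬ F h S ∧ F h (S ∪ Y l z))) = 0 := by
            have : (fun z : Z => ind (¬ F h S ∧ F h (S ∪ Y l z))) = fun _ => (0 : ℝ) := by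
              funext z
              exact ind_false (fun hc => hc.1 hm)
            rw [this, avg_const]
          rw [h3]
          exact hnn h hh
        · rw [ind_false hm, sub_zero]
          exact (avg_mono fun z => ind_mono fun hc => hc.2).trans (hmono l hl h hh S hS)
      have h5 := sum_le_sum h2
      have h6 : B l S = avg (fun z => ind (¬ V (S ∪ Y l z))) := by
        rw [hB]
        simp only
        rw [ind_false hv, zero_add]
      rw [h6]
      linarith
  -- apply the averaging operators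
  have step : ∀ l < m, (1 : ℝ) ≤ Ex X l (B l) +
      ∑ h ∈ H, (Ex X (l + 1) (fun S => ind (F h S)) - Ex X l (fun S => ind (F h S)) + e) := by
    intro l hl
    have h2 := Ex_mono (X := X) l (key l hl)
    rw [Ex_const, Ex_add, Ex_sum] at h2
    refine h2.trans (le_of_eq ?_)
    congr 1
    apply sum_congr rfl
    intro h _
    rw [Ex_add l (fun S => avg (fun ω => ind (F h (S ∪ X l ω))) - ind (F h S)) (fun _ => e),
      Ex_const, Ex_sub l (fun S => avg (fun ω => ind (F h (S ∪ X l ω)))) (fun S => ind (F h S))]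
    rfl
  have hsum : (m : ℝ) ≤ (∑ l ∈ range m, Ex X l (B l)) +
      ∑ h ∈ H, (Ex X m (fun S => ind (F h S)) - ind (F h ∅) + m * e) := by
    calc (m : ℝ) = ∑ i ∈ range m, (1 : ℝ) := by
          rw [sum_const, card_range, nsmul_eq_mul, mul_one]
      _ ≤ ∑ l ∈ range m, (Ex X l (B l) + ∑ h ∈ H, (Ex X (l + 1) (fun S => ind (F h S)) -
            Ex X l (fun S => ind (F h S)) + e)) :=
          sum_le_sum fun i hi => step i (mem_range.1 hi)
      _ = (∑ l ∈ range m, Ex X l (B l)) +
            ∑ h ∈ H, (Ex X m (fun S => ind (F h S)) - ind (F h ∅) + m * e) := by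
          rw [sum_add_distrib]
          congr 1
          rw [sum_comm]
          apply sum_congr rfl
          intro h _
          rw [sum_add_distrib, sum_range_sub (fun i => Ex X i (fun S => ind (F h S))), sum_const,
            card_range, nsmul_eq_mul]
          rfl
  have hbd : ∀ h ∈ H, Ex X m (fun S => ind (F h S)) - ind (F h ∅) + m * e ≤ 1 + m * e := by
    intro h _
    have h4 : Ex X m (fun S => ind (F h S)) ≤ 1 := by
      calc Ex X m (fun S => ind (F h S)) ≤ Ex X m (fun _ => (1 : ℝ)) :=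
            Ex_mono m fun S _ => ind_le_one _
        _ = 1 := Ex_const _ _
    have h5 : 0 ≤ ind (F h ∅) := ind_nonneg _
    linarith
  have hcard : ∑ h ∈ H, (Ex X m (fun S => ind (F h S)) - ind (F h ∅) + m * e) ≤
      W * (1 + m * e) := by
    calc ∑ h ∈ H, (Ex X m (fun S => ind (F h S)) - ind (F h ∅) + m * e)
        ≤ ∑ h ∈ H, (1 + m * e) := sum_le_sum hbd
      _ = H.card * (1 + m * e) := by rw [sum_const, nsmul_eq_mul]
      _ ≤ _ := mul_le_mul_of_nonneg_right hW (by positivity)
  linarith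

/-- The bound for randomized acceptance. -/
theorem rand_bound {e : ℝ} (he : 0 ≤ e) {M : ℕ} {p : Fin M → ℝ} (hp : ∀ j, 0 ≤ p j)
    (hp1 : ∑ j, p j = 1) {V : Fin M → Set E → Prop} {F : Fin M → κ → Set E → Prop}
    {H : Fin M → Finset κ} {m : ℕ} {W δ : ℝ} (hW : ∀ j, ((H j).card : ℝ) ≤ W)
    (hF : ∀ j, ∀ h ∈ H j, ∀ S S', S ⊆ S' → F j h S → F j h S')
    (hsep : ∀ j, ∀ S S', S ⊆ S' → ¬ V j S → V j S' → ∃ h ∈ H j, ¬ F j h S ∧ F j h S')
    (hmono : ∀ j, ∀ l < m, ∀ h ∈ H j, ∀ G : Set E, Reach X l G →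
      avg (fun z => ind (F j h (G ∪ Y l z))) ≤ avg (fun ω => ind (F j h (G ∪ X l ω))) + e)
    (h1 : ∀ l < m, ∀ S z, Reach X l S → 1 / 2 + δ ≤ ∑ j, p j * ind (V j (S ∪ Y l z)))
    (h0 : ∀ l < m, ∀ S, Reach X l S → ∑ j, p j * ind (V j S) ≤ 1 / 2 - δ) :
    2 * δ * m ≤ W * (1 + m * e) := by
  classical
  obtain ⟨B, hB⟩ : ∃ B : Fin M → ℕ → Set E → ℝ, B = fun j l S => ind (V j S) +
        avg (fun z => ind (¬ V j (S ∪ Y l z))) := ⟨_, rfl⟩
  have hchain : ∀ j, (m : ℝ) ≤ (∑ l ∈ range m, Ex X l (B j l)) + W * (1 + m * e) := by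
    intro j
    rw [hB]
    exact chain_bound he (hW j) (hF j) (hsep j) m (hmono j)
  -- average over the circuits
  have hpt : ∀ l < m, ∀ S : Set E, Reach X l S → (∑ j, p j * B j l S) ≤ 1 - 2 * δ := by
    intro l hl S hS
    have h2 : (∑ j, p j * B j l S) = (∑ j, p j * ind (V j S)) +
        avg (fun z => 1 - ∑ j, p j * ind (V j (S ∪ Y l z))) := by
      have h3 : ∀ z, 1 - ∑ j, p j * ind (V j (S ∪ Y l z)) =
          ∑ j, p j * ind (¬ V j (S ∪ Y l z)) := by
        intro z
        rw [← hp1, ← sum_sub_distrib]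
        apply sum_congr rfl
        intro j _
        rw [ind_not]
        ring
      simp only [h3]
      rw [avg_sum univ (fun j z => p j * ind (¬ V j (S ∪ Y l z))), ← sum_add_distrib]
      apply sum_congr rfl
      intro j _
      rw [avg_mul_left, hB]
      ring
    have h5 : avg (fun z => 1 - ∑ j, p j * ind (V j (S ∪ Y l z))) ≤ 1 / 2 - δ := by
      calc avg (fun z => 1 - ∑ j, p j * ind (V j (S ∪ Y l z)))
          ≤ avg (fun _ : Z => 1 / 2 - δ) := by
            apply avg_mono
            intro z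
            have := h1 l hl S z hS
            linarith
        _ = 1 / 2 - δ := avg_const _
    have h4 := h0 l hl S hS
    rw [h2]
    linarith
  have hstep : ∀ l < m, ∑ j, p j * Ex X l (B j l) ≤ 1 - 2 * δ := by
    intro l hl
    have h2 : ∑ j, p j * Ex X l (B j l) = Ex X l (fun S => ∑ j, p j * B j l S) := by
      rw [Ex_sum l univ (fun j S => p j * B j l S)]
      apply sum_congr rfl
      intro j _
      rw [Ex_mul_left l (p j) (B j l)]
    rw [h2]
    exact (Ex_mono l (hpt l hl)).trans (Ex_const _ _).le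
  have hsum : (m : ℝ) ≤ m * (1 - 2 * δ) + W * (1 + m * e) := by
    calc (m : ℝ) = ∑ j, p j * (m : ℝ) := by rw [← sum_mul, hp1, one_mul]
      _ ≤ ∑ j, p j * ((∑ l ∈ range m, Ex X l (B j l)) + W * (1 + m * e)) :=
          sum_le_sum fun j _ => mul_le_mul_of_nonneg_left (hchain j) (hp j)
      _ = (∑ l ∈ range m, ∑ j, p j * Ex X l (B j l)) + W * (1 + m * e) := by
          obtain ⟨V', hV'⟩ : ∃ V', V' = W * (1 + m * e) := ⟨_, rfl⟩
          rw [← hV']
          simp only [mul_add, sum_add_distrib, mul_sum]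
          rw [sum_comm, ← sum_mul, hp1, one_mul]
      _ ≤ (∑ l ∈ range m, (1 - 2 * δ)) + W * (1 + m * e) := by
          have := sum_le_sum fun l hl => hstep l (mem_range.1 hl)
          linarith
      _ = _ := by rw [sum_const, card_range, nsmul_eq_mul]
  linarith

end RealMono
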