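import Pool.Agent.Lib.MP_8fffab_lc_MC.Step

/-!
# Closures of chains of families of terms
-/

open Finset

namespace SetCoverMono

section Clo

variable {n : ℕ}

/-- The smallest closed family which contains `𝒜`. -/
noncomputable def clo (p K e : ℕ) [NeZero p] (𝒯 𝒜 : Finset (Tm n)) : Finset (Tm n) := by
  classical exact 𝒯.filter fun b => ∀ 𝒜', 𝒜 ⊆ 𝒜' → Cl p K e 𝒯 𝒜' → b ∈ 𝒜'

variable {p K e : ℕ} [NeZero p] {𝒯 : Finset (Tm n)}

theorem mem_clo {𝒜 : Finset (Tm n)} {b : Tm n} :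
    b ∈ clo p K e 𝒯 𝒜 ↔ b ∈ 𝒯 ∧ ∀ 𝒜', 𝒜 ⊆ 𝒜' → Cl p K e 𝒯 𝒜' → b ∈ 𝒜' := by
  classical
  unfold clo
  rw [mem_filter]

theorem subset_clo {𝒜 : Finset (Tm n)} (h : 𝒜 ⊆ 𝒯) : 𝒜 ⊆ clo p K e 𝒯 𝒜 :=
  fun _ hb => mem_clo.2 ⟨h hb, fun _ h' _ => h' hb⟩

theorem clo_subset {𝒜 : Finset (Tm n)} : clo p K e 𝒯 𝒜 ⊆ 𝒯 := fun _ hb => (mem_clo.1 hb).1

theorem clo_mono {𝒜 ℬ : Finset (Tm n)} (h : 𝒜 ⊆ ℬ) : clo p K e 𝒯 𝒜 ⊆ clo p K e 𝒯 ℬ :=
  fun _ hb => mem_clo.2 ⟨(mem_clo.1 hb).1, fun 𝒜' h' hc => (mem_clo.1 hb).2 𝒜' (h.trans h') hc⟩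

theorem newF_anti {𝒜 ℬ : Finset (Tm n)} (h : 𝒜 ⊆ ℬ) (b : Tm n) : newF p ℬ b ⊆ newF p 𝒜 b := by
  intro f hf
  rw [mem_newF] at hf ⊢
  exact ⟨hf.1, fun b' hb' => hf.2 b' (h hb')⟩

theorem clo_cl (𝒜 : Finset (Tm n)) : Cl p K e 𝒯 (clo p K e 𝒯 𝒜) := by
  refine ⟨clo_subset, fun b hb hle => mem_clo.2 ⟨hb, fun 𝒜' h' hc => ?_⟩⟩
  apply hc.2 b hb
  refine le_trans (Nat.mul_le_mul_left _ (card_le_card (newF_anti ?_ b))) hle
  exact fun c hc' => (mem_clo.1 hc').2 𝒜' h' hc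

theorem clo_err {𝒜 : Finset (Tm n)} (h : 𝒜 ⊆ 𝒯) :
    ∃ F : Finset (Fin n → ZMod p), K * F.card ≤ 𝒯.card * p ^ e ∧
      ∀ f, (∃ b ∈ clo p K e 𝒯 𝒜, NegSat f b) → f ∈ F ∨ ∃ b ∈ 𝒜, NegSat f b := by
  obtain ⟨A', h1, h2, F, h3, h4⟩ := exists_closure (p := p) (K := K) (e := e) 𝒯 _ 𝒜 h rfl
  refine ⟨F, h3.trans (Nat.mul_le_mul_right _ (Nat.sub_le _ _)), fun f hf => h4 f ?_⟩
  obtain ⟨b, hb, hfb⟩ := hf
  exact ⟨b, (mem_clo.1 hb).2 A' h1 h2, hfb⟩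

/-- The errors caused by closing all families of a chain. -/
theorem chain_err {A : ℝ → Finset (Tm n)} (hA : ∀ θ, A θ ⊆ 𝒯)
    (hanti : ∀ θ θ', θ ≤ θ' → A θ' ⊆ A θ) :
    ∃ F : Finset (Fin n → ZMod p), K * F.card ≤ (𝒯.card + 1) * (𝒯.card * p ^ e) ∧
      ∀ θ f, (∃ b ∈ clo p K e 𝒯 (A θ), NegSat f b) → f ∈ F ∨ ∃ b ∈ A θ, NegSat f b := by
  classical
  have h0 : ∀ c : ℕ, ∃ F : Finset (Fin n → ZMod p), K * F.card ≤ 𝒯.card * p ^ e ∧
      ∀ θ, (A θ).card = c → ∀ f, (∃ b ∈ clo p K e 𝒯 (A θ), NegSat f b) →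
        f ∈ F ∨ ∃ b ∈ A θ, NegSat f b := by
    intro c
    by_cases hc : ∃ θ, (A θ).card = c
    · obtain ⟨θ₀, hθ₀⟩ := hc
      obtain ⟨F, hF, hF'⟩ := clo_err (p := p) (K := K) (e := e) (hA θ₀)
      refine ⟨F, hF, fun θ hθ => ?_⟩
      have heq : A θ = A θ₀ := by
        rcases le_total θ θ₀ with hle | hle
        · exact (eq_of_subset_of_card_le (hanti _ _ hle) (by omega)).symm
        · exact eq_of_subset_of_card_le (hanti _ _ hle) (by omega)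
      rw [heq]
      exact hF'
    · exact ⟨∅, by simp, fun θ hθ => absurd ⟨θ, hθ⟩ hc⟩
  choose F hF hF' using h0
  refine ⟨(range (𝒯.card + 1)).biUnion F, ?_, fun θ f hf => ?_⟩
  · calc K * ((range (𝒯.card + 1)).biUnion F).card
        ≤ K * ∑ c ∈ range (𝒯.card + 1), (F c).card := Nat.mul_le_mul_left _ card_biUnion_le
      _ = ∑ c ∈ range (𝒯.card + 1), K * (F c).card := by rw [mul_sum]
      _ ≤ ∑ c ∈ range (𝒯.card + 1), 𝒯.card * p ^ e := sum_le_sum fun c _ => hF c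
      _ = _ := by rw [sum_const, card_range, smul_eq_mul]
  · rcases hF' _ θ rfl f hf with h | h
    · refine Or.inl (mem_biUnion.2 ⟨_, ?_, h⟩)
      rw [mem_range]
      exact Nat.lt_succ_of_le (card_le_card (hA θ))
    · exact Or.inr h

/-- The entering terms of a chain of families: a term enters at the smallest family which
contains it, and it must be minimal there. -/
noncomputable def ent (𝒯 : Finset (Tm n)) (C : ℝ → Finset (Tm n)) : Finset (Tm n) := by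
  classical exact 𝒯.filter fun b => ∃ θ, b ∈ minT (C θ) ∧ ∀ θ', b ∈ C θ' → C θ ⊆ C θ'

theorem mem_ent {C : ℝ → Finset (Tm n)} {b : Tm n} :
    b ∈ ent 𝒯 C ↔ b ∈ 𝒯 ∧ ∃ θ, b ∈ minT (C θ) ∧ ∀ θ', b ∈ C θ' → C θ ⊆ C θ' := by
  classical
  unfold ent
  rw [mem_filter]

theorem ent_spec {C : ℝ → Finset (Tm n)} (hC : ∀ θ, C θ ⊆ 𝒯)
    (hanti : ∀ θ θ', θ ≤ θ' → C θ' ⊆ C θ) {P : Tm n → Prop}
    (hP : ∀ b b', b ≤ b' → P b → P b') {θ : ℝ} (h : ∃ b ∈ C θ, P b) :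
    ∃ b ∈ ent 𝒯 C, b ∈ C θ ∧ P b := by
  classical
  -- the smallest family of the chain which is hit
  have hex : ∃ c, ∃ θ', C θ' ⊆ C θ ∧ (C θ').card = c ∧ ∃ b ∈ C θ', P b :=
    ⟨_, θ, subset_rfl, rfl, h⟩
  obtain ⟨θ', h1, h2, b, hb, hPb⟩ := Nat.find_spec hex
  have hmin := fun m hm => Nat.find_min hex (m := m) hm
  obtain ⟨b', hb', hle⟩ := exists_minT hb
  have hb'C := (mem_minT.1 hb').1
  have hPb' := hP b b' hle hPb
  refine ⟨b', mem_ent.2 ⟨hC _ hb'C, θ', hb', fun θ'' hθ'' => ?_⟩, h1 hb'C, hPb'⟩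
  have hcmp : C θ' ⊆ C θ'' ∨ C θ'' ⊆ C θ' := by
    rcases le_total θ' θ'' with hle | hle
    · exact Or.inr (hanti _ _ hle)
    · exact Or.inl (hanti _ _ hle)
  rcases hcmp with hs | hs
  · exact hs
  · have hcard : (C θ').card ≤ (C θ'').card := by
      by_contra hlt
      rw [not_le] at hlt
      exact hmin (C θ'').card (by omega) ⟨θ'', hs.trans h1, rfl, b', hθ'', hPb'⟩
    exact (eq_of_subset_of_card_le hs hcard).symm.subset

end Clo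

/-- There are few entering terms. -/
theorem ent_card {p n k t G κ : ℕ} [Fact p.Prime] (hG : G < 2 * t) (h1 : OneDim p k t G)
    (hκ : 0 < κ) {𝒯 : Finset (Tm n)} (hup : ∀ b ∈ 𝒯, ∀ b', b ≤ b' → b' ∈ 𝒯)
    (hy : ∀ b ∈ 𝒯, ∃ y : Fin n → Fin k, PosSat y b) {C : ℝ → Finset (Tm n)}
    (hcl : ∀ θ, Cl p (κ ^ G) (n + k * (2 * t + 1)) 𝒯 (C θ))
    (hanti : ∀ θ θ', θ ≤ θ' → C θ' ⊆ C θ) : (ent 𝒯 C).card ≤ (2 * κ) ^ k := by
  classical
  by_contra hcon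
  rw [not_le] at hcon
  set ℬ := ent 𝒯 C with hℬ
  have h2κ : 0 < 2 * κ := by omega
  have hℬ𝒯 : ∀ b ∈ ℬ, b ∈ 𝒯 := fun b hb => (mem_ent.1 hb).1
  let up : Tm n → Finset (Tm n) := fun b₀ => ℬ.filter fun b => b ≤ b₀
  let φ : Tm n → ℕ := fun b₀ => (up b₀).card * (2 * κ) ^ rk p b₀
  obtain ⟨b₀, hb₀, hmax⟩ := (allT n k).exists_max_image φ ⟨⊤, top_mem_allT n k⟩
  have htop : φ ⊤ = ℬ.card := by
    have : up ⊤ = ℬ := by
      apply Finset.filter_true_of_mem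
      intro b _
      exact le_top
    simp only [φ, this, rk_top, pow_zero, mul_one]
  have h2 : (2 * κ) ^ k < φ b₀ := by
    calc (2 * κ) ^ k < ℬ.card := hcon
      _ = φ ⊤ := htop.symm
      _ ≤ φ b₀ := hmax _ (top_mem_allT n k)
  have hupne : (up b₀).Nonempty := by
    rw [← Finset.card_pos]
    by_contra h
    have h0 : (up b₀).card = 0 := by omega
    simp only [φ, h0, zero_mul] at h2
    omega
  have hrk : rk p b₀ ≤ k := by
    obtain ⟨b, hb⟩ := hupne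
    obtain ⟨y, hyb⟩ := hy b (hℬ𝒯 b (mem_filter.1 hb).1)
    exact rk_le (hyb.mono (mem_filter.1 hb).2)
  have hcard : 1 < (up b₀).card := by
    by_contra h
    have h3 : φ b₀ ≤ (2 * κ) ^ k := by
      calc φ b₀ = (up b₀).card * (2 * κ) ^ rk p b₀ := rfl
        _ ≤ 1 * (2 * κ) ^ rk p b₀ := Nat.mul_le_mul_right _ (by omega)
        _ ≤ (2 * κ) ^ k := by
            rw [one_mul]
            exact Nat.pow_le_pow_right h2κ hrk
    omega
  -- the terms strictly below `b₀`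
  let 𝒟 : Finset (Tm n) := (up b₀).erase b₀
  have h𝒟c : (up b₀).card ≤ 2 * 𝒟.card := by
    have : (up b₀).card - 1 ≤ 𝒟.card := pred_card_le_card_erase
    omega
  have h𝒟ne : 𝒟.Nonempty := by
    rw [← Finset.card_pos]
    omega
  have h𝒟 : ∀ b ∈ 𝒟, b ∈ ℬ ∧ b ≤ b₀ ∧ b ≠ b₀ := fun b hb =>
    ⟨(mem_filter.1 (mem_erase.1 hb).2).1, (mem_filter.1 (mem_erase.1 hb).2).2,
      (mem_erase.1 hb).1⟩
  -- the family in which the last one enters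
  have hent : ∀ b : Tm n, ∃ θ : ℝ, b ∈ ℬ → b ∈ minT (C θ) ∧ ∀ θ', b ∈ C θ' → C θ ⊆ C θ' := by
    intro b
    by_cases hb : b ∈ ℬ
    · obtain ⟨-, θ, hθ⟩ := mem_ent.1 hb
      exact ⟨θ, fun _ => hθ⟩
    · exact ⟨0, fun h => absurd h hb⟩
  choose θ hθ using hent
  obtain ⟨b, hb, hbmax⟩ := 𝒟.exists_max_image (fun b => (C (θ b)).card) h𝒟ne
  have hsub : ∀ b' ∈ 𝒟, C (θ b') ⊆ C (θ b) := by
    intro b' hb'
    rcases le_total (θ b) (θ b') with hle | hle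
    · exact hanti _ _ hle
    · have hs := hanti _ _ hle
      exact (eq_of_subset_of_card_le hs (hbmax b' hb')).symm.subset
  have hbℬ := (h𝒟 b hb).1
  have hble := (h𝒟 b hb).2.1
  have hb₀𝒯 : b₀ ∈ 𝒯 := hup b (hℬ𝒯 b hbℬ) b₀ hble
  have hb₀C : b₀ ∈ C (θ b) := by
    apply (hcl (θ b)).2 b₀ hb₀𝒯
    have hych : ∀ b : Tm n, ∃ y : Fin n → Fin k, b ∈ 𝒯 → PosSat y b := by
      intro b
      by_cases hb : b ∈ 𝒯
      · obtain ⟨y, h⟩ := hy b hb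
        exact ⟨y, fun _ => h⟩
      · obtain ⟨y, _⟩ := hy b₀ hb₀𝒯
        exact ⟨y, fun h => absurd h hb⟩
    choose y hych using hych
    refine hit hG h1 𝒟 h𝒟ne (fun b => Vs p b) y ?_ (Vs p b₀) ?_ hκ ?_ (newF p (C (θ b)) b₀) ?_
    · intro b hb w hw
      exact exists_comp (hych b (hℬ𝒯 b (h𝒟 b hb).1)) hw
    · intro b hb
      exact Vs_anti (h𝒟 b hb).2.1
    · intro w hw
      set b₁ : Tm n := b₀ ⊓ kerT w with hb₁
      have hsub : (𝒟.filter fun b => w ∈ Vs p b) ⊆ up b₁ := by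
        intro c hc
        rw [mem_filter] at hc
        exact mem_filter.2 ⟨(h𝒟 c hc.1).1, le_inf (h𝒟 c hc.1).2.1 (le_kerT hc.2)⟩
      rcases (up b₁).eq_empty_or_nonempty with he | ⟨c, hc⟩
      · rw [he, Finset.subset_empty] at hsub
        rw [hsub]
        simp
      · have hb₁T : b₁ ∈ allT n k := by
          obtain ⟨y, hyc⟩ := hy c (hℬ𝒯 c (mem_filter.1 hc).1)
          exact mem_allT (hyc.mono (mem_filter.1 hc).2)
        have h4 : φ b₁ ≤ φ b₀ := hmax _ hb₁T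
        have h5 : rk p b₀ < rk p b₁ := rk_lt hw
        have h6 : (up b₁).card * (2 * κ) * (2 * κ) ^ rk p b₀ ≤
            (up b₀).card * (2 * κ) ^ rk p b₀ := by
          calc (up b₁).card * (2 * κ) * (2 * κ) ^ rk p b₀ =
                (up b₁).card * (2 * κ) ^ (rk p b₀ + 1) := by ring
            _ ≤ (up b₁).card * (2 * κ) ^ rk p b₁ :=
                Nat.mul_le_mul_left _ (Nat.pow_le_pow_right h2κ h5)
            _ ≤ _ := h4
        have h7 := Nat.le_of_mul_le_mul_right h6 (Nat.pow_pos h2κ)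
        have h8 := Nat.mul_le_mul_right (2 * κ) (card_le_card hsub)
        have h9 : (𝒟.filter fun b => w ∈ Vs p b).card * κ * 2 ≤ 𝒟.card * 2 := by
          calc (𝒟.filter fun b => w ∈ Vs p b).card * κ * 2 =
                (𝒟.filter fun b => w ∈ Vs p b).card * (2 * κ) := by ring
            _ ≤ (up b₁).card * (2 * κ) := h8
            _ ≤ (up b₀).card := h7
            _ ≤ 𝒟.card * 2 := by omega
        exact Nat.le_of_mul_le_mul_right h9 (by norm_num)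
    · intro f hf
      rw [mem_newF] at hf
      refine ⟨hf.1, fun b' hb' => ?_⟩
      have hb'C : b' ∈ C (θ b) :=
        hsub b' hb' (mem_minT.1 (hθ b' (h𝒟 b' hb').1).1).1
      have := hf.2 b' hb'C
      unfold NegSat at this
      push Not at this
      exact this
  exact (h𝒟 b hb).2.2 ((mem_minT.1 (hθ b hbℬ).1).2 b₀ hb₀C hble).symm

end SetCoverMono
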