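import Pool.Agent.Lib.MP_8fffab_lc_RG.Clo

/-!
# Approximation of a nondecreasing real function of two gates
-/

open Finset

namespace SetCoverMono

/-- Few permutations satisfy an intersection of two allowed terms which is too large. -/
theorem bad_pair {n k : ℕ} (y₀ : Fin n → Fin k) {b₁ b₂ : Tm n} (h₁ : b₁ ∈ terms y₀)
    (h₂ : b₂ ∈ terms y₀) (hT : b₁ ⊓ b₂ ∉ terms y₀)
    [DecidablePred fun π : Equiv.Perm (Fin n) => PosSat (y₀ ∘ π) (b₁ ⊓ b₂)] :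
    2 ^ n * (univ.filter fun π : Equiv.Perm (Fin n) => PosSat (y₀ ∘ π) (b₁ ⊓ b₂)).card ≤
      3 ^ k * (n + 1) * n.factorial := by
  classical
  rcases (univ.filter fun π : Equiv.Perm (Fin n) =>
    PosSat (y₀ ∘ π) (b₁ ⊓ b₂)).eq_empty_or_nonempty with he | ⟨π₀, hπ₀⟩
  · rw [he]
    simp
  have hbig : n ≤ 2 * (supp b₁ ∪ (supp b₂ \ supp b₁)).card := by
    rw [Finset.union_sdiff_self_eq_union, ← supp_inf]
    by_contra hcon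
    apply hT
    rw [mem_terms]
    exact ⟨⟨π₀, (mem_filter.1 hπ₀).2⟩, by omega⟩
  have hpc := perm_count y₀ (supp b₁) (supp b₂ \ supp b₁) disjoint_sdiff
    (mem_terms.1 h₁).2
    ((Nat.mul_le_mul_left 2 (card_le_card sdiff_subset)).trans (mem_terms.1 h₂).2) hbig
  refine le_trans ?_ hpc
  rw [mul_comm]
  apply Nat.mul_le_mul_right
  apply card_le_card
  intro π hπ
  rw [mem_filter] at hπ ⊢
  refine ⟨mem_univ _, fun u v huv => ?_⟩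
  have h3 : b₁.r (some u) (some v) := (hπ.2 u v huv).1
  have h4 : b₂.r (some u) (some v) := (hπ.2 u v huv).2
  have h5 : u ∈ supp b₁ ↔ v ∈ supp b₁ := by
    rw [mem_supp, mem_supp]
    exact not_congr ⟨fun h => b₁.trans (b₁.symm h3) h, fun h => b₁.trans h3 h⟩
  have h6 : u ∈ supp b₂ ↔ v ∈ supp b₂ := by
    rw [mem_supp, mem_supp]
    exact not_congr ⟨fun h => b₂.trans (b₂.symm h4) h, fun h => b₂.trans h4 h⟩
  refine ⟨h5, ?_⟩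
  rw [mem_sdiff, mem_sdiff, h5, h6]

theorem real_step {p n k t G κ : ℕ} [Fact p.Prime] (hG : G < 2 * t) (h1 : OneDim p k t G)
    (hκ : 0 < κ) (y₀ : Fin n → Fin k) {A₁ A₂ : ℝ → Finset (Tm n)}
    (hA₁ : ∀ θ, A₁ θ ⊆ terms y₀) (hA₂ : ∀ θ, A₂ θ ⊆ terms y₀)
    (ha₁ : ∀ θ θ', θ ≤ θ' → A₁ θ' ⊆ A₁ θ) (ha₂ : ∀ θ θ', θ ≤ θ' → A₂ θ' ⊆ A₂ θ)
    (g : ℝ → ℝ → ℝ) :
    ∃ A : ℝ → Finset (Tm n), (∀ θ, A θ ⊆ terms y₀) ∧ (∀ θ θ', θ ≤ θ' → A θ' ⊆ A θ) ∧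
      (∃ B : Finset (Equiv.Perm (Fin n)),
        2 ^ n * B.card ≤ (2 * κ) ^ k * (2 * κ) ^ k * (3 ^ k * (n + 1) * n.factorial) ∧
        ∀ (π : Equiv.Perm (Fin n)) (α β : ℝ), (∃ b ∈ A₁ α, PosSat (y₀ ∘ π) b) →
          (∃ b ∈ A₂ β, PosSat (y₀ ∘ π) b) → π ∈ B ∨ ∃ b ∈ A (g α β), PosSat (y₀ ∘ π) b) ∧
      ∃ F : Finset (Fin n → ZMod p),
        κ ^ G * F.card ≤ 2 * (((k + 1) ^ (n + 1) + 1) *
          ((k + 1) ^ (n + 1) * p ^ (n + k * (2 * t + 1)))) ∧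
        ∀ (f : Fin n → ZMod p) (θ : ℝ), (∃ b ∈ A θ, NegSat f b) →
          f ∈ F ∨ ∃ α β, θ ≤ g α β ∧ (∃ b ∈ A₁ α, NegSat f b) ∧ ∃ b ∈ A₂ β, NegSat f b := by
  classical
  obtain ⟨F₁, hF₁, hF₁'⟩ := chain_err (p := p) (K := κ ^ G) (e := n + k * (2 * t + 1)) hA₁ ha₁
  obtain ⟨F₂, hF₂, hF₂'⟩ := chain_err (p := p) (K := κ ^ G) (e := n + k * (2 * t + 1)) hA₂ ha₂
  have hbd : ∀ F : Finset (Fin n → ZMod p), κ ^ G * F.card ≤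
      ((terms y₀).card + 1) * ((terms y₀).card * p ^ (n + k * (2 * t + 1))) →
      κ ^ G * F.card ≤ ((k + 1) ^ (n + 1) + 1) *
          ((k + 1) ^ (n + 1) * p ^ (n + k * (2 * t + 1))) := by
    intro F hF
    have := terms_card y₀
    exact hF.trans (Nat.mul_le_mul (Nat.add_le_add_right this 1) (Nat.mul_le_mul_right _ this))
  let C₁ : ℝ → Finset (Tm n) := fun θ => clo p (κ ^ G) (n + k * (2 * t + 1)) (terms y₀) (A₁ θ)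
  let C₂ : ℝ → Finset (Tm n) := fun θ => clo p (κ ^ G) (n + k * (2 * t + 1)) (terms y₀) (A₂ θ)
  have hC₁ : ∀ θ θ', θ ≤ θ' → C₁ θ' ⊆ C₁ θ := fun θ θ' h => clo_mono (ha₁ θ θ' h)
  have hC₂ : ∀ θ θ', θ ≤ θ' → C₂ θ' ⊆ C₂ θ := fun θ θ' h => clo_mono (ha₂ θ θ' h)
  have hup : ∀ b ∈ terms y₀, ∀ b', b ≤ b' → b' ∈ terms y₀ := fun b hb b' h => terms_up hb h
  have hy : ∀ b ∈ terms y₀, ∃ y : Fin n → Fin k, PosSat y b := by
    intro b hb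
    obtain ⟨⟨π, hπ⟩, _⟩ := mem_terms.1 hb
    exact ⟨_, hπ⟩
  have he₁ : (ent (terms y₀) C₁).card ≤ (2 * κ) ^ k :=
    ent_card hG h1 hκ hup hy (fun θ => clo_cl _) hC₁
  have he₂ : (ent (terms y₀) C₂).card ≤ (2 * κ) ^ k :=
    ent_card hG h1 hκ hup hy (fun θ => clo_cl _) hC₂
  let pairs := ent (terms y₀) C₁ ×ˢ ent (terms y₀) C₂
  let A : ℝ → Finset (Tm n) := fun θ => (terms y₀).filter fun b =>
    ∃ α β, θ ≤ g α β ∧ ∃ b₁ ∈ C₁ α, ∃ b₂ ∈ C₂ β, b = b₁ ⊓ b₂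
  let bad : Tm n × Tm n → Finset (Equiv.Perm (Fin n)) := fun x =>
    if x.1 ⊓ x.2 ∈ terms y₀ then ∅ else
      univ.filter fun π : Equiv.Perm (Fin n) => PosSat (y₀ ∘ π) (x.1 ⊓ x.2)
  refine ⟨A, fun θ b hb => (mem_filter.1 hb).1, ?_, ⟨pairs.biUnion bad, ?_, ?_⟩, F₁ ∪ F₂, ?_, ?_⟩
  · intro θ θ' h b hb
    obtain ⟨hb1, α, β, h2, h3⟩ := mem_filter.1 hb
    exact mem_filter.2 ⟨hb1, α, β, h.trans h2, h3⟩
  · have hbad : ∀ x ∈ pairs, 2 ^ n * (bad x).card ≤ 3 ^ k * (n + 1) * n.factorial := by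
      intro x hx
      simp only [bad]
      split_ifs with hx'
      · simp
      · exact bad_pair y₀ (mem_ent.1 (mem_product.1 hx).1).1 (mem_ent.1 (mem_product.1 hx).2).1 hx'
    calc 2 ^ n * (pairs.biUnion bad).card ≤ 2 ^ n * ∑ x ∈ pairs, (bad x).card :=
          Nat.mul_le_mul_left _ card_biUnion_le
      _ = ∑ x ∈ pairs, 2 ^ n * (bad x).card := by rw [Finset.mul_sum]
      _ ≤ ∑ x ∈ pairs, 3 ^ k * (n + 1) * n.factorial := Finset.sum_le_sum hbad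
      _ = pairs.card * (3 ^ k * (n + 1) * n.factorial) := by
          rw [Finset.sum_const, smul_eq_mul]
      _ ≤ _ := by
          apply Nat.mul_le_mul_right
          rw [card_product]
          exact Nat.mul_le_mul he₁ he₂
  · rintro π α β ⟨b₁, hb₁, hπ₁⟩ ⟨b₂, hb₂, hπ₂⟩
    obtain ⟨c₁, hc₁, hc₁C, hs₁⟩ := ent_spec (𝒯 := terms y₀) (C := C₁)
      (fun θ => clo_subset) hC₁ (P := fun b => PosSat (y₀ ∘ π) b) (fun b b' h hb => hb.mono h)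
      (θ := α) ⟨b₁, subset_clo (hA₁ α) hb₁, hπ₁⟩
    obtain ⟨c₂, hc₂, hc₂C, hs₂⟩ := ent_spec (𝒯 := terms y₀) (C := C₂)
      (fun θ => clo_subset) hC₂ (P := fun b => PosSat (y₀ ∘ π) b) (fun b b' h hb => hb.mono h)
      (θ := β) ⟨b₂, subset_clo (hA₂ β) hb₂, hπ₂⟩
    have hπ : PosSat (y₀ ∘ π) (c₁ ⊓ c₂) := hs₁.inf hs₂
    have hp : (c₁, c₂) ∈ pairs := mem_product.2 ⟨hc₁, hc₂⟩
    by_cases hT : c₁ ⊓ c₂ ∈ terms y₀
    · exact Or.inr ⟨c₁ ⊓ c₂,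
        mem_filter.2 ⟨hT, α, β, le_rfl, c₁, hc₁C, c₂, hc₂C, rfl⟩, hπ⟩
    · refine Or.inl (mem_biUnion.2 ⟨(c₁, c₂), hp, ?_⟩)
      simp only [bad]
      rw [if_neg hT]
      exact mem_filter.2 ⟨mem_univ _, hπ⟩
  · calc κ ^ G * (F₁ ∪ F₂).card ≤ κ ^ G * (F₁.card + F₂.card) :=
          Nat.mul_le_mul_left _ (card_union_le _ _)
      _ = κ ^ G * F₁.card + κ ^ G * F₂.card := by ring
      _ ≤ _ := by
          rw [two_mul]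
          exact Nat.add_le_add (hbd F₁ hF₁) (hbd F₂ hF₂)
  · rintro f θ ⟨b, hb, hf⟩
    obtain ⟨-, α, β, h2, b₁, hb₁, b₂, hb₂, rfl⟩ := mem_filter.1 hb
    rcases hF₁' α f ⟨b₁, hb₁, hf.mono inf_le_left⟩ with h | h
    · exact Or.inl (mem_union_left _ h)
    rcases hF₂' β f ⟨b₂, hb₂, hf.mono inf_le_right⟩ with h' | h'
    · exact Or.inl (mem_union_right _ h')
    exact Or.inr ⟨α, β, h2, h, h'⟩

end SetCoverMono
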