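import Pool.Agent.Lib.MP_8fffab_lc_RG.Circ
import Pool.Agent.Lib.MP_8fffab_lc_NM.Rand
import Pool.Agent.Lib.MP_8fffab_lc_NM.Upper

/-! Boolean circuits are real circuits; the dynamic program as a monotone real circuit. -/

open Finset

namespace RealMono

theorem min_mono₂ : Mono₂ fun x y => min x y := fun _ _ _ _ h h' => min_le_min h h'

/-- The real circuit of a Boolean circuit. -/
noncomputable def ofBool {ι : Type} (C : AlmostMono.Circuit ι) : Circuit ι := fun i =>
  match C i with
  | .input v => .input v
  | .const b => .const (bit (b = true))
  | .and a b => .mono (fun x y => min x y) min_mono₂ a b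
  | .or S => .max S
  | .other r w g => .other r w g

theorem ofBool_val {ι : Type} (C : AlmostMono.Circuit ι) (x : ι → Prop) (i : ℕ) :
    (ofBool C).val x i = bit (C.val x i) := by
  induction i using Nat.strong_induction_on with
  | _ i ih =>
    cases hC : C i with
    | input v =>
      have h1 : ofBool C i = .input v := by unfold ofBool; rw [hC]
      rw [Circuit.val, h1, AlmostMono.Circuit.val, hC]
    | const b =>
      have h1 : ofBool C i = .const (bit (b = true)) := by unfold ofBool; rw [hC]
      rw [Circuit.val, h1, AlmostMono.Circuit.val, hC]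
    | and a b =>
      have h1 : ofBool C i = .mono (fun x y => min x y) min_mono₂ a b := by
        unfold ofBool; rw [hC]
      rw [Circuit.val, h1, AlmostMono.Circuit.val, hC]
      simp only
      rw [ih a a.isLt, ih b b.isLt]
      by_cases ha : C.val x a
      · by_cases hb : C.val x b
        · rw [bit_true ha, bit_true hb, bit_true (show C.val x a ∧ C.val x b from ⟨ha, hb⟩)]
          simp
        · rw [bit_true ha, bit_false hb, bit_false (show ¬ (C.val x a ∧ C.val x b) from
            fun h => hb h.2)]
          simp
      · rw [bit_false ha, bit_false (show ¬ (C.val x a ∧ C.val x b) from fun h => ha h.1)]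
        exact min_eq_left (bit_nonneg _)
    | or S =>
      have h1 : ofBool C i = .max S := by unfold ofBool; rw [hC]
      rw [Circuit.val, h1, AlmostMono.Circuit.val, hC]
      simp only
      by_cases hS : S.Nonempty
      · rw [dif_pos hS]
        simp only [fun a : Fin i => ih a a.isLt]
        apply le_antisymm
        · apply sup'_le
          intro a ha
          exact bit_mono fun h => ⟨a, ha, h⟩
        · by_cases h : ∃ a ∈ S, C.val x a
          · obtain ⟨a, ha, hv⟩ := h
            rw [bit_true (show ∃ a ∈ S, C.val x a from ⟨a, ha, hv⟩), ← bit_true hv]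
            exact le_sup' (fun a : Fin i => bit (C.val x a)) ha
          · rw [bit_false h]
            obtain ⟨a, ha⟩ := hS
            exact (bit_nonneg _).trans (le_sup' (fun a : Fin i => bit (C.val x a)) ha)
      · rw [dif_neg hS, bit_false]
        rintro ⟨a, ha, -⟩
        exact hS ⟨a, ha⟩
    | other r w g =>
      have h1 : ofBool C i = .other r w g := by unfold ofBool; rw [hC]
      rw [Circuit.val, h1, AlmostMono.Circuit.val, hC]
      simp only
      have h2 : (fun l => 1 ≤ (ofBool C).val x (w l)) = fun l => C.val x (w l) := by
        funext l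
        rw [ih (w l) (w l).isLt]
        exact propext one_le_bit
      rw [h2]

/-- The model of real circuits contains the Boolean one. -/
theorem of_bool {m n k s t w : ℕ} {δ : ℝ} (h : AlmostMono.HasRandomCircuit m n k s t w δ) :
    HasRandomCircuit m n k s t w δ := by
  obtain ⟨M, p, C, o, hp, hp1, hC, hyes, hno⟩ := h
  have hval : ∀ (x : Fin m × Fin n → Prop), Prob p (fun j => 1 ≤ (ofBool (C j)).val x (o j)) =
      AlmostMono.Prob p fun j => (C j).val x (o j) := by
    intro x
    rw [AlmostMono.prob_eq]
    unfold Prob
    apply sum_congr rfl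
    intro j _
    have h1 : (1 ≤ (ofBool (C j)).val x (o j)) ↔ (C j).val x (o j) := by
      rw [ofBool_val]; exact one_le_bit
    have h2 : bit (1 ≤ (ofBool (C j)).val x (o j)) = FewNeg.ind ((C j).val x (o j)) := by
      by_cases h : (C j).val x (o j)
      · rw [bit_true (h1.2 h), FewNeg.ind_true h]
      · rw [bit_false (fun h' => h (h1.1 h')), FewNeg.ind_false h]
    rw [h2]
  refine ⟨M, p, fun j => ofBool (C j), o, hp, hp1, fun j => ?_, fun a ha => ?_, fun a ha => ?_⟩
  · have h1 : ∀ i, ((ofBool (C j)) i).isMono = ((C j) i).isAnd := by
      intro i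
      unfold ofBool
      cases (C j) i <;> rfl
    have h2 : ∀ i, ((ofBool (C j)) i).isOther = ((C j) i).isOther := by
      intro i
      unfold ofBool
      cases (C j) i <;> rfl
    have h3 : ∀ i, ((ofBool (C j)) i).wires = ((C j) i).wires := by
      intro i
      unfold ofBool
      cases (C j) i <;> rfl
    refine ⟨?_, ?_, ?_⟩
    · unfold Circuit.numMono
      simp only [h1]
      exact (hC j).1
    · unfold Circuit.numOther
      simp only [h2]
      exact (hC j).2.1
    · unfold Circuit.numWires
      simp only [h3]
      exact (hC j).2.2
  · rw [hval]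
    exact hyes a ha
  · rw [hval]
    exact hno a ha

theorem upper (m n k : ℕ) : HasRandomCircuit m n k (2 ^ n * (m * n * k)) 0 0 (1 / 2) :=
  of_bool (AlmostMono.upper m n k)

end RealMono
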